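import Mathlib

set_option autoImplicit false

namespace Pool.Agent.Helper832.CD

universe u

/-- A left Banach `A`-module: a Banach space with a bounded bilinear action `act a x = a x` such
that `(a b) x = a (b x)` (no unit condition). -/
structure LMod (A : Type u) [NonUnitalNormedRing A] [NormedSpace ℂ A] where
  carrier : Type u
  [grp : NormedAddCommGroup carrier]
  [spc : NormedSpace ℂ carrier]
  [cpl : CompleteSpace carrier]
  act : A → carrier → carrier
  bdd : IsBoundedBilinearMap ℂ (fun p : A × carrier => act p.1 p.2)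
  act_mul : ∀ a b x, act (a * b) x = act a (act b x)

/-- A Banach `A`-bimodule: a Banach space with bounded bilinear actions `left a x = a x` and
`right a x = x a` such that `(a b) x = a (b x)`, `x (a b) = (x a) b` and `a (x b) = (a x) b`. -/
structure BMod (A : Type u) [NonUnitalNormedRing A] [NormedSpace ℂ A] where
  carrier : Type u
  [grp : NormedAddCommGroup carrier]
  [spc : NormedSpace ℂ carrier]
  [cpl : CompleteSpace carrier]
  left : A → carrier → carrier
  right : A → carrier → carrier
  left_bdd : IsBoundedBilinearMap ℂ (fun p : A × carrier => left p.1 p.2)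
  right_bdd : IsBoundedBilinearMap ℂ (fun p : A × carrier => right p.1 p.2)
  left_mul : ∀ a b x, left (a * b) x = left a (left b x)
  right_mul : ∀ a b x, right (a * b) x = right b (right a x)
  left_right : ∀ a b x, left a (right b x) = right b (left a x)

attribute [instance] LMod.grp LMod.spc LMod.cpl BMod.grp BMod.spc BMod.cpl

/-- `σ` has a right inverse which is a bounded linear operator -/
def Admissible {E F : Type u} [NormedAddCommGroup E] [NormedSpace ℂ E] [NormedAddCommGroup F]
    [NormedSpace ℂ F] (σ : E → F) : Prop :=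
  ∃ g : F → E, IsBoundedLinearMap ℂ g ∧ ∀ y, σ (g y) = y

variable {A : Type u} [NonUnitalNormedRing A] [NormedSpace ℂ A]

namespace LMod

/-- `f` is a morphism of left Banach modules: bounded, linear and `f (a x) = a (f x)` -/
def IsHom (X Y : LMod A) (f : X.carrier → Y.carrier) : Prop :=
  IsBoundedLinearMap ℂ f ∧ ∀ a x, f (X.act a x) = Y.act a (f x)

/-- `P` is (relatively) projective: morphisms from `P` lift along all admissible epimorphisms. -/
def Projective (P : LMod A) : Prop :=
  ∀ (Y Z : LMod A) (σ : Y.carrier → Z.carrier) (φ : P.carrier → Z.carrier),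
    IsHom Y Z σ → Admissible σ → IsHom P Z φ →
    ∃ ψ : P.carrier → Y.carrier, IsHom P Y ψ ∧ ∀ p, σ (ψ p) = φ p

/-- An admissible resolution `0 ← X ← P₀ ← P₁ ← ⋯` by projective modules, with a contracting
homotopy `s', s` consisting of bounded linear operators. -/
structure Resolution (X : LMod A) where
  P : ℕ → LMod A
  ε : (P 0).carrier → X.carrier
  d : ∀ i, (P (i + 1)).carrier → (P i).carrier
  s' : X.carrier → (P 0).carrier
  s : ∀ i, (P i).carrier → (P (i + 1)).carrier
  projective : ∀ i, (P i).Projective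
  ε_hom : IsHom (P 0) X ε
  d_hom : ∀ i, IsHom (P (i + 1)) (P i) (d i)
  s'_bdd : IsBoundedLinearMap ℂ s'
  s_bdd : ∀ i, IsBoundedLinearMap ℂ (s i)
  ε_d : ∀ x, ε (d 0 x) = 0
  d_d : ∀ i x, d i (d (i + 1) x) = 0
  ε_s : ∀ x, ε (s' x) = x
  h_zero : ∀ x, s' (ε x) + d 0 (s 0 x) = x
  h_succ : ∀ i x, s i (d i x) + d (i + 1) (s (i + 1) x) = x

/-- `X` has an admissible resolution `0 ← X ← P₀ ← ⋯ ← Pₙ ← 0` by projective modules. -/
def HasResolution (X : LMod A) (n : ℕ) : Prop :=
  ∃ R : Resolution X, ∀ i, n < i → Subsingleton (R.P i).carrier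

/-- the homological dimension of `X` -/
noncomputable def dh (X : LMod A) : ℕ∞ := ⨅ (n : ℕ) (_ : X.HasResolution n), (n : ℕ∞)

end LMod

namespace BMod

/-- `f` is a morphism of Banach bimodules -/
def IsHom (X Y : BMod A) (f : X.carrier → Y.carrier) : Prop :=
  IsBoundedLinearMap ℂ f ∧ (∀ a x, f (X.left a x) = Y.left a (f x)) ∧
    ∀ a x, f (X.right a x) = Y.right a (f x)

/-- `P` is (relatively) projective: morphisms from `P` lift along all admissible epimorphisms. -/
def Projective (P : BMod A) : Prop :=
  ∀ (Y Z : BMod A) (σ : Y.carrier → Z.carrier) (φ : P.carrier → Z.carrier),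
    IsHom Y Z σ → Admissible σ → IsHom P Z φ →
    ∃ ψ : P.carrier → Y.carrier, IsHom P Y ψ ∧ ∀ p, σ (ψ p) = φ p

/-- An admissible resolution `0 ← X ← P₀ ← P₁ ← ⋯` by projective bimodules, with a contracting
homotopy `s', s` consisting of bounded linear operators. -/
structure Resolution (X : BMod A) where
  P : ℕ → BMod A
  ε : (P 0).carrier → X.carrier
  d : ∀ i, (P (i + 1)).carrier → (P i).carrier
  s' : X.carrier → (P 0).carrier
  s : ∀ i, (P i).carrier → (P (i + 1)).carrier
  projective : ∀ i, (P i).Projective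
  ε_hom : IsHom (P 0) X ε
  d_hom : ∀ i, IsHom (P (i + 1)) (P i) (d i)
  s'_bdd : IsBoundedLinearMap ℂ s'
  s_bdd : ∀ i, IsBoundedLinearMap ℂ (s i)
  ε_d : ∀ x, ε (d 0 x) = 0
  d_d : ∀ i x, d i (d (i + 1) x) = 0
  ε_s : ∀ x, ε (s' x) = x
  h_zero : ∀ x, s' (ε x) + d 0 (s 0 x) = x
  h_succ : ∀ i x, s i (d i x) + d (i + 1) (s (i + 1) x) = x

/-- `X` has an admissible resolution `0 ← X ← P₀ ← ⋯ ← Pₙ ← 0` by projective bimodules. -/
def HasResolution (X : BMod A) (n : ℕ) : Prop :=
  ∃ R : Resolution X, ∀ i, n < i → Subsingleton (R.P i).carrier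

/-- the homological dimension of `X` -/
noncomputable def dh (X : BMod A) : ℕ∞ := ⨅ (n : ℕ) (_ : X.HasResolution n), (n : ℕ∞)

end BMod

variable (A)

/-- the Banach space underlying the unitization `A₊` of `A`: pairs `(r, x)` with the norm
`|r| + ‖x‖` -/
abbrev Plus : Type u := WithLp 1 (ℂ × A)

variable {A}

/-- the left action on the unitization: `a (r, x) = (0, r a + a x)` -/
noncomputable def plusLeft (a : A) (x : Plus A) : Plus A :=
  WithLp.toLp 1 ((0 : ℂ), x.fst • a + a * x.snd)

/-- the right action on the unitization: `(r, x) a = (0, r a + x a)` -/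
noncomputable def plusRight (a : A) (x : Plus A) : Plus A :=
  WithLp.toLp 1 ((0 : ℂ), x.fst • a + x.snd * a)

omit [NormedSpace ℂ A] in
lemma plus_norm (x : Plus A) : ‖x‖ = ‖x.fst‖ + ‖x.snd‖ := WithLp.prod_norm_eq_of_L1 x

omit [NonUnitalNormedRing A] [NormedSpace ℂ A] in
lemma plus_ext {x y : Plus A} (h1 : x.fst = y.fst) (h2 : x.snd = y.snd) : x = y :=
  (WithLp.equiv 1 (ℂ × A)).injective (Prod.ext h1 h2)

section

variable [IsScalarTower ℂ A A] [SMulCommClass ℂ A A]

lemma plusLeft_bdd : IsBoundedBilinearMap ℂ (fun p : A × Plus A => plusLeft p.1 p.2) where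
  add_left := fun a b x => plus_ext (by simp [plusLeft]) (by simp [plusLeft, add_mul]; abel)
  smul_left := fun c a x => plus_ext (by simp [plusLeft]) (by
    show x.fst • (c • a) + (c • a) * x.snd = c • (x.fst • a + a * x.snd)
    rw [smul_add, smul_mul_assoc, smul_comm])
  add_right := fun a x y => plus_ext (by simp [plusLeft]) (by
    simp [plusLeft, mul_add, add_smul]; abel)
  smul_right := fun c a x => plus_ext (by simp [plusLeft]) (by
    show (c * x.fst) • a + a * (c • x.snd) = c • (x.fst • a + a * x.snd)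
    rw [smul_add, mul_smul_comm, mul_smul])
  bound := ⟨1, one_pos, fun a x => by
    rw [plus_norm]
    show ‖(0 : ℂ)‖ + ‖x.fst • a + a * x.snd‖ ≤ 1 * ‖a‖ * ‖x‖
    rw [plus_norm x, norm_zero, zero_add]
    refine (norm_add_le _ _).trans ?_
    have h1 := norm_mul_le a x.snd
    rw [norm_smul]
    nlinarith⟩

lemma plusRight_bdd : IsBoundedBilinearMap ℂ (fun p : A × Plus A => plusRight p.1 p.2) where
  add_left := fun a b x => plus_ext (by simp [plusRight]) (by simp [plusRight, mul_add]; abel)
  smul_left := fun c a x => plus_ext (by simp [plusRight]) (by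
    show x.fst • (c • a) + x.snd * (c • a) = c • (x.fst • a + x.snd * a)
    rw [smul_add, mul_smul_comm, smul_comm])
  add_right := fun a x y => plus_ext (by simp [plusRight]) (by
    simp [plusRight, add_mul, add_smul]; abel)
  smul_right := fun c a x => plus_ext (by simp [plusRight]) (by
    show (c * x.fst) • a + (c • x.snd) * a = c • (x.fst • a + x.snd * a)
    rw [smul_add, smul_mul_assoc, mul_smul])
  bound := ⟨1, one_pos, fun a x => by
    rw [plus_norm]
    show ‖(0 : ℂ)‖ + ‖x.fst • a + x.snd * a‖ ≤ 1 * ‖a‖ * ‖x‖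
    rw [plus_norm x, norm_zero, zero_add]
    refine (norm_add_le _ _).trans ?_
    have h1 := norm_mul_le x.snd a
    rw [norm_smul]
    nlinarith⟩

omit [IsScalarTower ℂ A A] in
lemma plusLeft_mul (a b : A) (x : Plus A) :
    plusLeft (a * b) x = plusLeft a (plusLeft b x) := by
  refine plus_ext rfl ?_
  show x.fst • (a * b) + a * b * x.snd = (0 : ℂ) • a + a * (x.fst • b + b * x.snd)
  rw [zero_smul, zero_add, mul_add, mul_smul_comm, mul_assoc]

omit [SMulCommClass ℂ A A] in
lemma plusRight_mul (a b : A) (x : Plus A) :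
    plusRight (a * b) x = plusRight b (plusRight a x) := by
  refine plus_ext rfl ?_
  show x.fst • (a * b) + x.snd * (a * b) = (0 : ℂ) • b + (x.fst • a + x.snd * a) * b
  rw [zero_smul, zero_add, add_mul, smul_mul_assoc, mul_assoc]

lemma plusLeft_plusRight (a b : A) (x : Plus A) :
    plusLeft a (plusRight b x) = plusRight b (plusLeft a x) := by
  refine plus_ext rfl ?_
  show (0 : ℂ) • a + a * (x.fst • b + x.snd * b) = (0 : ℂ) • b + (x.fst • a + a * x.snd) * b
  rw [zero_smul, zero_smul, zero_add, zero_add, mul_add, add_mul, mul_smul_comm, smul_mul_assoc,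
    mul_assoc]

variable (A)

/-- the unitization `A₊` as a Banach `A`-bimodule -/
noncomputable def plusBMod [CompleteSpace A] : BMod A where
  carrier := Plus A
  left := plusLeft
  right := plusRight
  left_bdd := plusLeft_bdd
  right_bdd := plusRight_bdd
  left_mul := plusLeft_mul
  right_mul := plusRight_mul
  left_right := plusLeft_plusRight

/-- the bidimension of `A`: the homological dimension of the Banach `A`-bimodule `A₊` -/
noncomputable def db [CompleteSpace A] : ℕ∞ := (plusBMod A).dh

end

/-- the global dimension of `A`: the supremum of the homological dimensions of all left Banach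
`A`-modules -/
noncomputable def dg (A : Type u) [NonUnitalNormedRing A] [NormedSpace ℂ A] : ℕ∞ :=
  ⨆ X : LMod A, X.dh

end Pool.Agent.Helper832.CD
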