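import Mathlib

set_option autoImplicit false

namespace Pool.Agent.Helper832.CD.J1

open scoped InnerProductSpace
universe u

/-- the dyadic coefficients -/
noncomputable def exd_h : ℕ → ℕ → ℕ → ℝ
  | 0, _, _ => 0
  | r + 1, i, k =>
    if i < 2 ^ r then (if k < 2 ^ r then exd_h r i k / 2 else -(1 / 4 ^ r))
    else (if k < 2 ^ r then 1 / 4 ^ r else exd_h r (i - 2 ^ r) (k - 2 ^ r) / 2)

noncomputable def exd_S (r : ℕ) (P : ℕ → ℕ → ℂ) : ℂ :=
  ∑ i ∈ Finset.range (2 ^ r), ∑ k ∈ Finset.range (2 ^ r), (exd_h r i k : ℂ) * P i k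

theorem exd_S_zero (P : ℕ → ℕ → ℂ) : exd_S 0 P = 0 := by
  simp [exd_S, exd_h]

theorem exd_S_succ (r : ℕ) (P : ℕ → ℕ → ℂ) :
    exd_S (r + 1) P =
      (1 / 4 ^ r : ℂ) * (∑ i ∈ Finset.range (2 ^ r), ∑ k ∈ Finset.range (2 ^ r), P (2 ^ r + i) k)
      - (1 / 4 ^ r : ℂ) * (∑ i ∈ Finset.range (2 ^ r), ∑ k ∈ Finset.range (2 ^ r), P i (2 ^ r + k))
      + (exd_S r P + exd_S r (fun i k => P (2 ^ r + i) (2 ^ r + k))) / 2 := by
  have h2 : 2 ^ (r + 1) = 2 ^ r + 2 ^ r := by rw [pow_succ, mul_two]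
  have eL : ∀ i ∈ Finset.range (2 ^ r), ∑ k ∈ Finset.range (2 ^ r + 2 ^ r),
      (exd_h (r + 1) i k : ℂ) * P i k =
      (1 / 2 : ℂ) * (∑ k ∈ Finset.range (2 ^ r), (exd_h r i k : ℂ) * P i k)
        + (-(1 / 4 ^ r : ℂ)) * (∑ k ∈ Finset.range (2 ^ r), P i (2 ^ r + k)) := by
    intro i hi
    have hi' : i < 2 ^ r := Finset.mem_range.mp hi
    rw [Finset.sum_range_add, Finset.mul_sum, Finset.mul_sum]
    congr 1
    · refine Finset.sum_congr rfl (fun k hk => ?_)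
      have hk' : k < 2 ^ r := Finset.mem_range.mp hk
      simp only [exd_h, if_pos hi', if_pos hk']
      push_cast
      ring
    · refine Finset.sum_congr rfl (fun k hk => ?_)
      have hk' : ¬ (2 ^ r + k < 2 ^ r) := by omega
      simp only [exd_h, if_pos hi', if_neg hk']
      push_cast
      ring
  have eR : ∀ i ∈ Finset.range (2 ^ r), ∑ k ∈ Finset.range (2 ^ r + 2 ^ r),
      (exd_h (r + 1) (2 ^ r + i) k : ℂ) * P (2 ^ r + i) k =
      (1 / 4 ^ r : ℂ) * (∑ k ∈ Finset.range (2 ^ r), P (2 ^ r + i) k)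
        + (1 / 2 : ℂ) * (∑ k ∈ Finset.range (2 ^ r),
          (exd_h r i k : ℂ) * P (2 ^ r + i) (2 ^ r + k)) := by
    intro i hi
    have hi' : ¬ (2 ^ r + i < 2 ^ r) := by omega
    rw [Finset.sum_range_add, Finset.mul_sum, Finset.mul_sum]
    congr 1
    · refine Finset.sum_congr rfl (fun k hk => ?_)
      have hk' : k < 2 ^ r := Finset.mem_range.mp hk
      simp only [exd_h, if_neg hi', if_pos hk']
      push_cast
      ring
    · refine Finset.sum_congr rfl (fun k hk => ?_)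
      have hk' : ¬ (2 ^ r + k < 2 ^ r) := by omega
      simp only [exd_h, if_neg hi', if_neg hk', Nat.add_sub_cancel_left]
      push_cast
      ring
  unfold exd_S
  rw [h2, Finset.sum_range_add, Finset.sum_congr rfl eL, Finset.sum_congr rfl eR,
    Finset.sum_add_distrib, Finset.sum_add_distrib, ← Finset.mul_sum, ← Finset.mul_sum,
    ← Finset.mul_sum, ← Finset.mul_sum]
  ring

theorem exd_avg (r : ℕ) (Q : ℕ → ℕ → ℂ) (δ : ℝ)
    (h : ∀ i < 2 ^ r, ∀ k < 2 ^ r, ‖Q i k‖ ≤ δ) :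
    ‖(1 / 4 ^ r : ℂ) * (∑ i ∈ Finset.range (2 ^ r), ∑ k ∈ Finset.range (2 ^ r), Q i k)‖ ≤ δ := by
  have h1 : ‖∑ i ∈ Finset.range (2 ^ r), ∑ k ∈ Finset.range (2 ^ r), Q i k‖ ≤ 4 ^ r * δ := by
    calc ‖∑ i ∈ Finset.range (2 ^ r), ∑ k ∈ Finset.range (2 ^ r), Q i k‖
        ≤ ∑ i ∈ Finset.range (2 ^ r), ‖∑ k ∈ Finset.range (2 ^ r), Q i k‖ := norm_sum_le _ _
      _ ≤ ∑ i ∈ Finset.range (2 ^ r), ∑ k ∈ Finset.range (2 ^ r), ‖Q i k‖ :=
          Finset.sum_le_sum fun i _ => norm_sum_le _ _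
      _ ≤ ∑ _i ∈ Finset.range (2 ^ r), ∑ _k ∈ Finset.range (2 ^ r), δ :=
          Finset.sum_le_sum fun i hi => Finset.sum_le_sum fun k hk =>
            h i (Finset.mem_range.mp hi) k (Finset.mem_range.mp hk)
      _ = 4 ^ r * δ := by
          rw [Finset.sum_const, Finset.sum_const, Finset.card_range, nsmul_eq_mul, nsmul_eq_mul,
            ← mul_assoc]
          push_cast
          rw [← mul_pow]
          norm_num
  have h4 : (0 : ℝ) < 4 ^ r := by positivity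
  have hn : ‖(1 / 4 ^ r : ℂ)‖ = 1 / 4 ^ r := by
    rw [norm_div, norm_one, norm_pow]
    norm_num
  rw [norm_mul, hn, one_div, inv_mul_le_iff₀ h4]
  exact h1

theorem exd_avg_sub (r : ℕ) (Q : ℕ → ℕ → ℂ) (δ : ℝ)
    (h : ∀ i < 2 ^ r, ∀ k < 2 ^ r, ‖Q i k - 1‖ ≤ δ) :
    ‖(1 / 4 ^ r : ℂ) * (∑ i ∈ Finset.range (2 ^ r), ∑ k ∈ Finset.range (2 ^ r), Q i k) - 1‖
      ≤ δ := by
  have h1 := exd_avg r (fun i k => Q i k - 1) δ h
  have h2 : (1 / 4 ^ r : ℂ) * (∑ i ∈ Finset.range (2 ^ r), ∑ k ∈ Finset.range (2 ^ r),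
      (Q i k - 1)) = (1 / 4 ^ r : ℂ) * (∑ i ∈ Finset.range (2 ^ r), ∑ k ∈ Finset.range (2 ^ r),
      Q i k) - 1 := by
    simp only [Finset.sum_sub_distrib, Finset.sum_const, Finset.card_range, nsmul_eq_mul, mul_one]
    rw [mul_sub]
    congr 1
    push_cast
    rw [← mul_pow]
    have : ((2 : ℂ) * 2) = 4 := by norm_num
    rw [this]
    field_simp
  rwa [h2] at h1

theorem exd_part1 (r : ℕ) : ∀ (P : ℕ → ℕ → ℂ) (δ : ℝ), (∀ i k, k < i → ‖P i k - 1‖ ≤ δ) →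
    (∀ i k, i ≤ k → ‖P i k‖ ≤ δ) → ‖exd_S r P - r‖ ≤ 2 * r * δ := by
  induction r with
  | zero =>
    intro P δ _ _
    rw [exd_S_zero]
    simp
  | succ r ih =>
    intro P δ h1 h2
    have e1 := ih P δ h1 h2
    have e2 := ih (fun i k => P (2 ^ r + i) (2 ^ r + k)) δ
      (fun i k hik => h1 _ _ (by omega)) (fun i k hik => h2 _ _ (by omega))
    have e3 := exd_avg_sub r (fun i k => P (2 ^ r + i) k) δ (fun i _ k hk => h1 _ _ (by omega))
    have e4 := exd_avg r (fun i k => P i (2 ^ r + k)) δ (fun i hi k _ => h2 _ _ (by omega))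
    rw [exd_S_succ]
    generalize exd_S r P = A at *
    generalize exd_S r (fun i k => P (2 ^ r + i) (2 ^ r + k)) = B at *
    generalize (1 / 4 ^ r : ℂ) * (∑ i ∈ Finset.range (2 ^ r), ∑ k ∈ Finset.range (2 ^ r),
      P (2 ^ r + i) k) = X at *
    generalize (1 / 4 ^ r : ℂ) * (∑ i ∈ Finset.range (2 ^ r), ∑ k ∈ Finset.range (2 ^ r),
      P i (2 ^ r + k)) = Y at *
    have e5 : X - Y + (A + B) / 2 - ((r + 1 : ℕ) : ℂ) =
        (X - 1) - Y + ((A - r) + (B - r)) / 2 := by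
      push_cast
      ring
    rw [e5]
    have e6 : ‖((A - r) + (B - r)) / 2‖ ≤ 2 * r * δ := by
      rw [norm_div]
      have : ‖(2 : ℂ)‖ = 2 := by norm_num
      rw [this]
      have := norm_add_le (A - r) (B - r)
      linarith
    have e7 : ‖(X - 1) - Y + ((A - r) + (B - r)) / 2‖ ≤
        ‖X - 1‖ + ‖Y‖ + ‖((A - r) + (B - r)) / 2‖ :=
      (norm_add_le _ _).trans (add_le_add (norm_sub_le _ _) le_rfl)
    push_cast
    linarith

section exd

variable {H : Type u} [NormedAddCommGroup H] [InnerProductSpace ℂ H]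

noncomputable def exd_av (r : ℕ) (w : ℕ → H) : H :=
  (1 / 2 ^ r : ℂ) • (∑ i ∈ Finset.range (2 ^ r), w i)

theorem exd_av_norm (r : ℕ) (w : ℕ → H) (U : ℝ) (h : ∀ i, ‖w i‖ ≤ U) : ‖exd_av r w‖ ≤ U := by
  have h1 : ‖∑ i ∈ Finset.range (2 ^ r), w i‖ ≤ 2 ^ r * U := by
    calc ‖∑ i ∈ Finset.range (2 ^ r), w i‖
        ≤ ∑ i ∈ Finset.range (2 ^ r), ‖w i‖ := norm_sum_le _ _
      _ ≤ ∑ _i ∈ Finset.range (2 ^ r), U := Finset.sum_le_sum fun i _ => h i
      _ = 2 ^ r * U := by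
          rw [Finset.sum_const, Finset.card_range, nsmul_eq_mul]
          push_cast
          rfl
  have h4 : (0 : ℝ) < 2 ^ r := by positivity
  have hn : ‖(1 / 2 ^ r : ℂ)‖ = 1 / 2 ^ r := by
    rw [norm_div, norm_one, norm_pow]
    norm_num
  unfold exd_av
  rw [norm_smul, hn, one_div, inv_mul_le_iff₀ h4]
  exact h1

theorem exd_av_succ (r : ℕ) (w : ℕ → H) : exd_av (r + 1) w =
    (1 / 2 : ℂ) • (exd_av r w + exd_av r (fun i => w (2 ^ r + i))) := by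
  have h2 : 2 ^ (r + 1) = 2 ^ r + 2 ^ r := by rw [pow_succ, mul_two]
  unfold exd_av
  rw [h2, Finset.sum_range_add, ← smul_add, smul_smul]
  congr 1
  rw [pow_succ]
  field_simp

theorem exd_av_inner (r : ℕ) (w v : ℕ → H) :
    (1 / 4 ^ r : ℂ) * (∑ i ∈ Finset.range (2 ^ r), ∑ k ∈ Finset.range (2 ^ r), ⟪w i, v k⟫_ℂ) =
      ⟪exd_av r w, exd_av r v⟫_ℂ := by
  unfold exd_av
  rw [inner_smul_left, inner_smul_right, sum_inner]
  simp only [inner_sum]
  rw [← mul_assoc]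
  congr 1
  have h1 : (starRingEnd ℂ) (1 / 2 ^ r) = 1 / 2 ^ r := by
    rw [map_div₀, map_one, map_pow]
    congr 2
    exact Complex.conj_ofNat 2
  rw [h1]
  have h2 : (4 : ℂ) ^ r = 2 ^ r * 2 ^ r := by
    rw [← mul_pow]; norm_num
  rw [h2]
  field_simp

/-- the half difference of the averages -/
noncomputable def exd_d (r : ℕ) (w : ℕ → H) : H :=
  (1 / 2 : ℂ) • (exd_av r (fun i => w (2 ^ r + i)) - exd_av r w)

noncomputable def exd_a : ℕ → (ℕ → H) → ℝ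
  | 0, _ => 0
  | r + 1, w => ‖exd_d r w‖ + (exd_a r w + exd_a r (fun i => w (2 ^ r + i))) / 2

noncomputable def exd_q : ℕ → (ℕ → H) → ℝ
  | 0, _ => 0
  | r + 1, w => ‖exd_d r w‖ ^ 2 + (exd_q r w + exd_q r (fun i => w (2 ^ r + i))) / 2

theorem exd_q_nonneg (r : ℕ) : ∀ w : ℕ → H, 0 ≤ exd_q r w := by
  induction r with
  | zero => intro w; exact le_rfl
  | succ r ih =>
    intro w
    have h1 := ih w
    have h2 := ih (fun i => w (2 ^ r + i))
    simp only [exd_q]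
    positivity

theorem exd_a_nonneg (r : ℕ) : ∀ w : ℕ → H, 0 ≤ exd_a r w := by
  induction r with
  | zero => intro w; exact le_rfl
  | succ r ih =>
    intro w
    have h1 := ih w
    have h2 := ih (fun i => w (2 ^ r + i))
    simp only [exd_a]
    positivity

theorem exd_par (x y : H) : ‖(1 / 2 : ℂ) • (y - x)‖ ^ 2 + ‖(1 / 2 : ℂ) • (x + y)‖ ^ 2 =
    (‖x‖ ^ 2 + ‖y‖ ^ 2) / 2 := by
  have h1 := parallelogram_law_with_norm ℂ x y
  have h2 : ‖y - x‖ = ‖x - y‖ := norm_sub_rev y x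
  have h3 : ‖(1 / 2 : ℂ)‖ = 1 / 2 := by
    rw [norm_div, norm_one]; norm_num
  rw [norm_smul, norm_smul, h2, h3]
  nlinarith

theorem exd_q_le (r : ℕ) : ∀ (w : ℕ → H) (U : ℝ), (∀ i, ‖w i‖ ≤ U) →
    exd_q r w + ‖exd_av r w‖ ^ 2 ≤ U ^ 2 := by
  induction r with
  | zero =>
    intro w U h
    have h1 := exd_av_norm 0 w U h
    simp only [exd_q, zero_add]
    exact pow_le_pow_left₀ (norm_nonneg _) h1 2
  | succ r ih =>
    intro w U h
    have h1 := ih w U h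
    have h2 := ih (fun i => w (2 ^ r + i)) U (fun i => h _)
    have h3 := exd_par (exd_av r w) (exd_av r (fun i => w (2 ^ r + i)))
    rw [exd_av_succ]
    simp only [exd_q, exd_d]
    linarith

theorem exd_cs (r x y Q : ℝ) (hr : r = 0 ∨ 1 ≤ r) (hQ : 0 ≤ Q) (h : y ^ 2 ≤ r * Q) :
    (x + y) ^ 2 ≤ (r + 1) * (x ^ 2 + Q) := by
  rcases hr with rfl | hr
  · have hy : y = 0 := by
      have : y ^ 2 ≤ 0 := by linarith
      exact pow_eq_zero_iff two_ne_zero |>.mp (le_antisymm this (sq_nonneg y))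
    subst hy
    linarith
  · have hr0 : 0 < r := by linarith
    have h1 : 0 ≤ r * ((r + 1) * (x ^ 2 + Q) - (x + y) ^ 2) := by
      have h2 := sq_nonneg (r * x - y)
      have h3 : (r + 1) * y ^ 2 ≤ (r + 1) * (r * Q) :=
        mul_le_mul_of_nonneg_left h (by linarith)
      linarith
    have h4 := nonneg_of_mul_nonneg_right h1 hr0
    linarith

theorem exd_a_sq (r : ℕ) : ∀ w : ℕ → H, exd_a r w ^ 2 ≤ r * exd_q r w := by
  induction r with
  | zero => intro w; simp [exd_a]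
  | succ r ih =>
    intro w
    have h1 := ih w
    have h2 := ih (fun i => w (2 ^ r + i))
    have q1 := exd_q_nonneg r w
    have q2 := exd_q_nonneg r (fun i => w (2 ^ r + i))
    simp only [exd_a, exd_q]
    generalize exd_a r w = a at *
    generalize exd_a r (fun i => w (2 ^ r + i)) = b at *
    generalize exd_q r w = qa at *
    generalize exd_q r (fun i => w (2 ^ r + i)) = qb at *
    push_cast
    apply exd_cs
    · rcases Nat.eq_zero_or_pos r with h | h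
      · left; exact_mod_cast h
      · right; exact_mod_cast h
    · linarith
    · have h3 := sq_nonneg (a - b)
      have h4 : ((a + b) / 2) ^ 2 ≤ (a ^ 2 + b ^ 2) / 2 := by nlinarith
      linarith

theorem exd_a_le (r : ℕ) (w : ℕ → H) (U : ℝ) (h : ∀ i, ‖w i‖ ≤ U) : exd_a r w ≤ √r * U := by
  have hU : 0 ≤ U := (norm_nonneg _).trans (h 0)
  have h1 := exd_a_sq r w
  have h2 := exd_q_le r w U h
  have h3 : exd_q r w ≤ U ^ 2 := by
    have := sq_nonneg ‖exd_av r w‖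
    linarith
  have hr : (0 : ℝ) ≤ r := Nat.cast_nonneg r
  have h4 : exd_a r w ^ 2 ≤ r * U ^ 2 := h1.trans (mul_le_mul_of_nonneg_left h3 hr)
  have h5 : (√r * U) ^ 2 = r * U ^ 2 := by rw [mul_pow, Real.sq_sqrt hr]
  rw [← h5] at h4
  exact (pow_le_pow_iff_left₀ (exd_a_nonneg r w) (by positivity) two_ne_zero).mp h4

theorem exd_cross (wL wR vL vR : H) (U V : ℝ) (h1 : ‖wL‖ ≤ U) (h2 : ‖wR‖ ≤ U) (h3 : ‖vL‖ ≤ V)
    (h4 : ‖vR‖ ≤ V) :
    ‖⟪wR, vL⟫_ℂ - ⟪wL, vR⟫_ℂ‖ ≤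
      2 * V * ‖(1 / 2 : ℂ) • (wR - wL)‖ + 2 * U * ‖(1 / 2 : ℂ) • (vR - vL)‖ := by
  set s := (1 / 2 : ℂ) • (wL + wR) with hs
  set d := (1 / 2 : ℂ) • (wR - wL) with hd
  set s' := (1 / 2 : ℂ) • (vL + vR) with hs'
  set d' := (1 / 2 : ℂ) • (vR - vL) with hd'
  have eR : wR = s + d := by rw [hs, hd]; module
  have eL : wL = s - d := by rw [hs, hd]; module
  have eR' : vR = s' + d' := by rw [hs', hd']; module
  have eL' : vL = s' - d' := by rw [hs', hd']; module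
  have hh : ‖(1 / 2 : ℂ)‖ = 1 / 2 := by
    rw [norm_div, norm_one]; norm_num
  have ns : ‖s‖ ≤ U := by
    rw [hs, norm_smul, hh]
    have := norm_add_le wL wR
    linarith
  have ns' : ‖s'‖ ≤ V := by
    rw [hs', norm_smul, hh]
    have := norm_add_le vL vR
    linarith
  have e : ⟪wR, vL⟫_ℂ - ⟪wL, vR⟫_ℂ = 2 * ⟪d, s'⟫_ℂ - 2 * ⟪s, d'⟫_ℂ := by
    rw [eR, eL, eR', eL', inner_add_left, inner_sub_left, inner_sub_right, inner_sub_right,
      inner_add_right, inner_add_right]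
    ring
  rw [e]
  have n1 : ‖⟪d, s'⟫_ℂ‖ ≤ ‖d‖ * V :=
    (norm_inner_le_norm d s').trans (mul_le_mul_of_nonneg_left ns' (norm_nonneg _))
  have n2 : ‖⟪s, d'⟫_ℂ‖ ≤ U * ‖d'‖ :=
    (norm_inner_le_norm s d').trans (mul_le_mul_of_nonneg_right ns (norm_nonneg _))
  refine (norm_sub_le _ _).trans ?_
  rw [norm_mul, norm_mul]
  have : ‖(2 : ℂ)‖ = 2 := by norm_num
  rw [this]
  linarith

theorem exd_part2 (r : ℕ) : ∀ (w v : ℕ → H) (U V : ℝ), (∀ i, ‖w i‖ ≤ U) → (∀ k, ‖v k‖ ≤ V) →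
    ‖exd_S r (fun i k => ⟪w i, v k⟫_ℂ)‖ ≤ 2 * V * exd_a r w + 2 * U * exd_a r v := by
  induction r with
  | zero =>
    intro w v U V _ _
    rw [exd_S_zero]
    simp [exd_a]
  | succ r ih =>
    intro w v U V hU hV
    have e1 := ih w v U V hU hV
    have e2 := ih (fun i => w (2 ^ r + i)) (fun i => v (2 ^ r + i)) U V (fun i => hU _)
      (fun i => hV _)
    have e3 := exd_cross (exd_av r w) (exd_av r (fun i => w (2 ^ r + i))) (exd_av r v)
      (exd_av r (fun i => v (2 ^ r + i))) U V (exd_av_norm r _ U hU)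
      (exd_av_norm r _ U (fun i => hU _)) (exd_av_norm r _ V hV)
      (exd_av_norm r _ V (fun i => hV _))
    rw [exd_S_succ, exd_av_inner r (fun i => w (2 ^ r + i)) v,
      exd_av_inner r w (fun i => v (2 ^ r + i))]
    simp only [exd_a, exd_d]
    have e6 : ‖(exd_S r (fun i k => ⟪w i, v k⟫_ℂ) +
        exd_S r (fun i k => ⟪w (2 ^ r + i), v (2 ^ r + k)⟫_ℂ)) / 2‖ ≤
        ((2 * V * exd_a r w + 2 * U * exd_a r v) +
          (2 * V * exd_a r (fun i => w (2 ^ r + i)) + 2 * U * exd_a r (fun i => v (2 ^ r + i)))) /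
            2 := by
      rw [norm_div]
      have : ‖(2 : ℂ)‖ = 2 := by norm_num
      rw [this]
      have := norm_add_le (exd_S r (fun i k => ⟪w i, v k⟫_ℂ))
        (exd_S r (fun i k => ⟪w (2 ^ r + i), v (2 ^ r + k)⟫_ℂ))
      linarith
    refine (norm_add_le _ _).trans ((add_le_add e3 e6).trans (le_of_eq ?_))
    ring

end exd

/-- dyadic coefficients: triangular matrices versus Gram matrices -/
theorem exists_dyadic (r : ℕ) : ∃ h : ℕ → ℕ → ℝ,
    (∀ (P : ℕ → ℕ → ℂ) (δ : ℝ), (∀ i k, k < i → ‖P i k - 1‖ ≤ δ) → (∀ i k, i ≤ k → ‖P i k‖ ≤ δ) →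
      ‖∑ i ∈ Finset.range (2 ^ r), ∑ k ∈ Finset.range (2 ^ r), (h i k : ℂ) * P i k - r‖
        ≤ 2 * r * δ) ∧
    ∀ (H : Type u) [NormedAddCommGroup H] [InnerProductSpace ℂ H] (w v : ℕ → H) (U V : ℝ),
      (∀ i, ‖w i‖ ≤ U) → (∀ k, ‖v k‖ ≤ V) →
      ‖∑ i ∈ Finset.range (2 ^ r), ∑ k ∈ Finset.range (2 ^ r), (h i k : ℂ) * ⟪w i, v k⟫_ℂ‖
        ≤ 4 * √r * U * V := by
  refine ⟨exd_h r, fun P δ h1 h2 => exd_part1 r P δ h1 h2, ?_⟩
  intro H _ _ w v U V hU hV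
  have h1 := exd_part2 r w v U V hU hV
  have h2 := exd_a_le r w U hU
  have h3 := exd_a_le r v V hV
  have hU0 : 0 ≤ U := (norm_nonneg _).trans (hU 0)
  have hV0 : 0 ≤ V := (norm_nonneg _).trans (hV 0)
  have h4 : 2 * V * exd_a r w ≤ 2 * V * (√r * U) := mul_le_mul_of_nonneg_left h2 (by linarith)
  have h5 : 2 * U * exd_a r v ≤ 2 * U * (√r * V) := mul_le_mul_of_nonneg_left h3 (by linarith)
  have h6 : ‖exd_S r (fun i k => ⟪w i, v k⟫_ℂ)‖ ≤ 4 * √r * U * V := by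
    refine h1.trans ((add_le_add h4 h5).trans (le_of_eq ?_))
    ring
  exact h6

end Pool.Agent.Helper832.CD.J1
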