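import Mathlib

set_option autoImplicit false

namespace Pool.Agent.Helper832.CD.J10

universe u

theorem tens_ext {Q V W : Type*} [NormedAddCommGroup Q] [NormedSpace ℂ Q]
    [NormedAddCommGroup V] [NormedSpace ℂ V] [NormedAddCommGroup W] [NormedSpace ℂ W]
    {A : Type*} [NormedAddCommGroup A] [NormedSpace ℂ A]
    (t : (ℂ × A) →L[ℂ] V →L[ℂ] Q)
    (ht : (Submodule.span ℂ {y : Q | ∃ c v, y = t c v}).topologicalClosure = ⊤)
    (F G : Q →L[ℂ] W) (h : ∀ c v, F (t c v) = G (t c v)) : F = G := by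
  apply ContinuousLinearMap.ext_on (s := {y : Q | ∃ c v, y = t c v})
  · exact Submodule.dense_iff_topologicalClosure_eq_top.2 ht
  · rintro _ ⟨c, v, rfl⟩
    exact h c v

/-- the free module `A₊ ⊗ V → V`; the hypothesis `htens` (projective tensor product) is proved
elsewhere -/
theorem exists_module_tensor (A : Type u) [NonUnitalNormedRing A] [NormedSpace ℂ A]
    [IsScalarTower ℂ A A] [SMulCommClass ℂ A A] (V : Type u) [NormedAddCommGroup V]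
    [NormedSpace ℂ V] [CompleteSpace V] (α : A →L[ℂ] V →L[ℂ] V)
    (hα : ∀ a b v, α (a * b) v = α a (α b v))
    (htens : ∃ (Q : Type u) (_ : NormedAddCommGroup Q) (_ : NormedSpace ℂ Q)
      (_ : CompleteSpace Q) (t : (ℂ × A) →L[ℂ] V →L[ℂ] Q),
      (Submodule.span ℂ {y : Q | ∃ c v, y = t c v}).topologicalClosure = ⊤ ∧
      ∀ (W : Type u) [NormedAddCommGroup W] [NormedSpace ℂ W] [CompleteSpace W]
        (B : (ℂ × A) →L[ℂ] V →L[ℂ] W), ∃ F : Q →L[ℂ] W, (∀ c v, F (t c v) = B c v) ∧ ‖F‖ ≤ ‖B‖) :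
    ∃ (Q : Type u) (_ : NormedAddCommGroup Q) (_ : NormedSpace ℂ Q) (_ : CompleteSpace Q)
      (β : A →L[ℂ] Q →L[ℂ] Q) (q : Q →L[ℂ] V) (s : V →L[ℂ] Q)
      (t : (ℂ × A) →L[ℂ] V →L[ℂ] Q),
      (∀ a b y, β (a * b) y = β a (β b y)) ∧ (∀ a y, q (β a y) = α a (q y)) ∧
      (∀ v, q (s v) = v) ∧
      (∀ (a : A) (c : ℂ × A) v, β a (t c v) = t (0, c.1 • a + a * c.2) v) ∧
      (∀ c v, q (t c v) = c.1 • v + α c.2 v) ∧
      (Submodule.span ℂ {y : Q | ∃ c v, y = t c v}).topologicalClosure = ⊤ ∧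
      (∀ B : (ℂ × A) →L[ℂ] V →L[ℂ] ℂ, ∃ F : Q →L[ℂ] ℂ, ∀ c v, F (t c v) = B c v) ∧
      (∀ (G : Q →L[ℂ] ℂ) (C : ℝ), 0 ≤ C → (∀ c v, ‖G (t c v)‖ ≤ C * ‖c‖ * ‖v‖) →
        ∀ y, ‖G y‖ ≤ C * ‖y‖) := by
  obtain ⟨Q, _, _, _, t, hspan, huni⟩ := htens
  -- the multiplication part
  let M : (ℂ × A) →L[ℂ] (A →L[ℂ] A) :=
    (ContinuousLinearMap.fst ℂ ℂ A).smulRight (ContinuousLinearMap.id ℂ A) +
      (ContinuousLinearMap.mul ℂ A).flip.comp (ContinuousLinearMap.snd ℂ ℂ A)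
  have hM : ∀ c a, M c a = c.1 • a + a * c.2 := fun c a => rfl
  let t2 : A →L[ℂ] V →L[ℂ] Q := t.comp (ContinuousLinearMap.inr ℂ ℂ A)
  have ht2 : ∀ a v, t2 a v = t (0, a) v := fun a v => rfl
  let B1 : (ℂ × A) →L[ℂ] V →L[ℂ] (A →L[ℂ] Q) :=
    ((ContinuousLinearMap.compL ℂ A A Q).comp t2.flip).flip.comp M
  have hB1 : ∀ c v a, B1 c v a = t (0, c.1 • a + a * c.2) v := fun c v a => rfl
  obtain ⟨F, hF, _⟩ := huni (A →L[ℂ] Q) B1
  let B2 : (ℂ × A) →L[ℂ] V →L[ℂ] V :=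
    (ContinuousLinearMap.fst ℂ ℂ A).smulRight (ContinuousLinearMap.id ℂ V) +
      α.comp (ContinuousLinearMap.snd ℂ ℂ A)
  have hB2 : ∀ c v, B2 c v = c.1 • v + α c.2 v := fun c v => rfl
  obtain ⟨q, hq, _⟩ := huni V B2
  have hβ : ∀ (a : A) (c : ℂ × A) v, F.flip a (t c v) = t (0, c.1 • a + a * c.2) v := by
    intro a c v
    rw [ContinuousLinearMap.flip_apply, hF, hB1]
  have hq' : ∀ c v, q (t c v) = c.1 • v + α c.2 v := by
    intro c v
    rw [hq, hB2]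
  have hlift : ∀ (G0 : (ℂ × A) →L[ℂ] V →L[ℂ] ℂ), ∃ G1 : Q →L[ℂ] ℂ,
      (∀ c v, G1 (t c v) = G0 c v) ∧ ∀ y, ‖G1 y‖ ≤ ‖G0‖ * ‖y‖ := by
    intro G0
    let U : ULift.{u} ℂ ≃ₗᵢ[ℂ] ℂ := LinearIsometryEquiv.ulift ℂ ℂ
    let B3 : (ℂ × A) →L[ℂ] V →L[ℂ] ULift.{u} ℂ :=
      (ContinuousLinearMap.compL ℂ V ℂ (ULift.{u} ℂ)
        (U.symm.toContinuousLinearEquiv : ℂ →L[ℂ] ULift.{u} ℂ)).comp G0
    have hB3 : ∀ c v, B3 c v = U.symm (G0 c v) := fun c v => rfl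
    have hB3n : ‖B3‖ ≤ ‖G0‖ := by
      refine ContinuousLinearMap.opNorm_le_bound₂ _ (ContinuousLinearMap.opNorm_nonneg G0)
        fun c v => ?_
      rw [hB3, LinearIsometryEquiv.norm_map]
      exact G0.le_opNorm₂ c v
    obtain ⟨H, hH, hHn⟩ := huni (ULift.{u} ℂ) B3
    refine ⟨(U.toContinuousLinearEquiv : ULift.{u} ℂ →L[ℂ] ℂ).comp H, ?_, ?_⟩
    · intro c v
      show U (H (t c v)) = G0 c v
      rw [hH, hB3, LinearIsometryEquiv.apply_symm_apply]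
    · intro y
      show ‖U (H y)‖ ≤ _
      rw [LinearIsometryEquiv.norm_map]
      exact (H.le_opNorm y).trans
        (mul_le_mul_of_nonneg_right (hHn.trans hB3n) (norm_nonneg _))
  refine ⟨Q, inferInstance, inferInstance, inferInstance, F.flip, q, t (1, 0), t, ?_, ?_, ?_,
    hβ, hq', hspan, ?_, ?_⟩
  · intro a b y
    have h1 : F.flip (a * b) = (F.flip a).comp (F.flip b) := by
      apply tens_ext t hspan
      intro c v
      rw [ContinuousLinearMap.comp_apply, hβ, hβ, hβ]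
      congr 2
      simp only [zero_smul, zero_add, mul_add, mul_assoc, mul_smul_comm]
    rw [h1]
    rfl
  · intro a y
    have h1 : q.comp (F.flip a) = (α a).comp q := by
      apply tens_ext t hspan
      intro c v
      rw [ContinuousLinearMap.comp_apply, ContinuousLinearMap.comp_apply, hβ, hq', hq']
      simp [hα]
    have h2 := DFunLike.congr_fun h1 y
    exact h2
  · intro v
    rw [hq']
    simp
  · intro B
    obtain ⟨G1, hG1, _⟩ := hlift B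
    exact ⟨G1, hG1⟩
  · intro G C hC hG y
    let G0 : (ℂ × A) →L[ℂ] V →L[ℂ] ℂ := (ContinuousLinearMap.compL ℂ V Q ℂ G).comp t
    have hG0 : ∀ c v, G0 c v = G (t c v) := fun c v => rfl
    have hG0n : ‖G0‖ ≤ C := by
      refine ContinuousLinearMap.opNorm_le_bound₂ _ hC fun c v => ?_
      rw [hG0]
      exact hG c v
    obtain ⟨G1, hG1, hG1n⟩ := hlift G0
    have h1 : G1 = G := tens_ext t hspan G1 G (fun c v => by rw [hG1, hG0])
    rw [← h1]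
    exact (hG1n y).trans (mul_le_mul_of_nonneg_right hG0n (norm_nonneg _))

end Pool.Agent.Helper832.CD.J10
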