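import Mathlib

set_option autoImplicit false

namespace Pool.Agent.Helper832.CD.J12


theorem norm_sum_diag_le_aux (N : ℕ) : ∀ (G : ℕ → ℕ → ℂ) (c : ℂ) (C : ℝ),
    (∀ e : ℕ → ℂ, (∀ i, e i = 1 ∨ e i = -1) →
      ‖c + ∑ i ∈ Finset.range N, ∑ j ∈ Finset.range N, (e i * e j) * G i j‖ ≤ C) →
    ‖c + ∑ i ∈ Finset.range N, G i i‖ ≤ C := by
  induction N with
  | zero =>
    intro G c C h
    simpa using h (fun _ => 1) (fun _ => Or.inl rfl)
  | succ N ih =>
    intro G c C h
    rw [Finset.sum_range_succ, add_comm (∑ i ∈ Finset.range N, G i i) (G N N), ← add_assoc]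
    refine ih G (c + G N N) C fun e he => ?_
    set S := ∑ i ∈ Finset.range N, ∑ j ∈ Finset.range N, (e i * e j) * G i j with hS
    set L := ∑ i ∈ Finset.range N, e i * G i N + ∑ j ∈ Finset.range N, e j * G N j with hL
    have key : ∀ t : ℂ, t * t = 1 →
        ∑ i ∈ Finset.range (N + 1), ∑ j ∈ Finset.range (N + 1),
          ((Function.update e N t) i * (Function.update e N t) j) * G i j =
        S + t * L + G N N := by
      intro t ht
      have hne : ∀ i ∈ Finset.range N, Function.update e N t i = e i := by
        intro i hi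
        rw [Function.update_of_ne (Finset.mem_range.1 hi).ne]
      have hN : Function.update e N t N = t := Function.update_self ..
      rw [Finset.sum_range_succ]
      have h1 : ∑ i ∈ Finset.range N, ∑ j ∈ Finset.range (N + 1),
          ((Function.update e N t) i * (Function.update e N t) j) * G i j =
          S + t * ∑ i ∈ Finset.range N, e i * G i N := by
        rw [hS, Finset.mul_sum, ← Finset.sum_add_distrib]
        refine Finset.sum_congr rfl fun i hi => ?_
        rw [Finset.sum_range_succ, hN, hne i hi]
        congr 1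
        · refine Finset.sum_congr rfl fun j hj => ?_
          rw [hne j hj]
        · ring
      have h2 : ∑ j ∈ Finset.range (N + 1),
          ((Function.update e N t) N * (Function.update e N t) j) * G N j =
          t * ∑ j ∈ Finset.range N, e j * G N j + G N N := by
        rw [Finset.sum_range_succ, hN, ht, one_mul, Finset.mul_sum]
        congr 1
        refine Finset.sum_congr rfl fun j hj => ?_
        rw [hne j hj]; ring
      rw [h1, h2, hL]; ring
    have hs : ∀ t : ℂ, (t = 1 ∨ t = -1) → ∀ i, Function.update e N t i = 1 ∨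
        Function.update e N t i = -1 := by
      intro t ht i
      by_cases hi : i = N
      · subst hi; rw [Function.update_self]; exact ht
      · rw [Function.update_of_ne hi]; exact he i
    have hp := h (Function.update e N 1) (hs 1 (Or.inl rfl))
    have hm := h (Function.update e N (-1)) (hs (-1) (Or.inr rfl))
    rw [key 1 (by ring)] at hp
    rw [key (-1) (by ring)] at hm
    have h3 : c + G N N + S = (1 / 2 : ℂ) * ((c + (S + 1 * L + G N N)) +
        (c + (S + (-1) * L + G N N))) := by ring
    rw [h3, norm_mul]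
    have h4 := norm_add_le (c + (S + 1 * L + G N N)) (c + (S + (-1) * L + G N N))
    have h5 : ‖(1 / 2 : ℂ)‖ = 1 / 2 := by norm_num
    rw [h5]
    linarith

/-- averaging over two families of signs -/
theorem norm_sum_diag_le (N : ℕ) (G : ℕ → ℕ → ℕ → ℕ → ℂ) (C : ℝ)
    (h : ∀ e e' : ℕ → ℂ, (∀ i, e i = 1 ∨ e i = -1) → (∀ k, e' k = 1 ∨ e' k = -1) →
      ‖∑ i ∈ Finset.range N, ∑ k ∈ Finset.range N, ∑ j ∈ Finset.range N, ∑ l ∈ Finset.range N,
        (e i * e' k * e j * e' l) * G i k j l‖ ≤ C) :
    ‖∑ i ∈ Finset.range N, ∑ k ∈ Finset.range N, G i k i k‖ ≤ C := by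
  have h1 : ∀ e' : ℕ → ℂ, (∀ k, e' k = 1 ∨ e' k = -1) →
      ‖(0 : ℂ) + ∑ k ∈ Finset.range N, ∑ l ∈ Finset.range N,
        (e' k * e' l) * ∑ i ∈ Finset.range N, G i k i l‖ ≤ C := by
    intro e' he'
    have := norm_sum_diag_le_aux N (fun i j => ∑ k ∈ Finset.range N, ∑ l ∈ Finset.range N,
      (e' k * e' l) * G i k j l) 0 C (fun e he => ?_)
    · have h2 : ∑ k ∈ Finset.range N, ∑ l ∈ Finset.range N,
          (e' k * e' l) * ∑ i ∈ Finset.range N, G i k i l =
          ∑ i ∈ Finset.range N, ∑ k ∈ Finset.range N, ∑ l ∈ Finset.range N,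
            (e' k * e' l) * G i k i l := by
        rw [Finset.sum_comm (s := Finset.range N) (t := Finset.range N)
          (f := fun i k => ∑ l ∈ Finset.range N, (e' k * e' l) * G i k i l)]
        refine Finset.sum_congr rfl fun k _ => ?_
        rw [Finset.sum_comm]
        refine Finset.sum_congr rfl fun l _ => ?_
        rw [Finset.mul_sum]
      rw [h2]; exact this
    · have h3 := h e e' he he'
      rw [zero_add]
      convert h3 using 2
      refine Finset.sum_congr rfl fun i _ => ?_
      rw [Finset.sum_comm]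
      refine Finset.sum_congr rfl fun j _ => ?_
      rw [Finset.mul_sum]
      refine Finset.sum_congr rfl fun k _ => ?_
      rw [Finset.mul_sum]
      refine Finset.sum_congr rfl fun l _ => ?_
      ring
  have h2 := norm_sum_diag_le_aux N (fun k l => ∑ i ∈ Finset.range N, G i k i l) 0 C h1
  rw [zero_add, Finset.sum_comm] at h2
  exact h2

end Pool.Agent.Helper832.CD.J12
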