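import Mathlib

set_option autoImplicit false

namespace Pool.Agent.Helper832.CD.J13

open scoped InnerProductSpace
universe u

/-- the final contradiction; `hsigns` and `hdy` are proved elsewhere -/
theorem final_contradiction (A M Q H : Type u) [NormedAddCommGroup A] [NormedSpace ℂ A]
    [NormedAddCommGroup M] [NormedSpace ℂ M] [NormedAddCommGroup Q] [NormedSpace ℂ Q]
    [NormedAddCommGroup H] [InnerProductSpace ℂ H]
    (hsigns : ∀ (N : ℕ) (G : ℕ → ℕ → ℕ → ℕ → ℂ) (C : ℝ),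
      (∀ e e' : ℕ → ℂ, (∀ i, e i = 1 ∨ e i = -1) → (∀ k, e' k = 1 ∨ e' k = -1) →
      ‖∑ i ∈ Finset.range N, ∑ k ∈ Finset.range N, ∑ j ∈ Finset.range N, ∑ l ∈ Finset.range N,
        (e i * e' k * e j * e' l) * G i k j l‖ ≤ C) →
      ‖∑ i ∈ Finset.range N, ∑ k ∈ Finset.range N, G i k i k‖ ≤ C)
    (hdy : ∀ r : ℕ, ∃ h : ℕ → ℕ → ℝ,
      (∀ (P : ℕ → ℕ → ℂ) (δ : ℝ), (∀ i k, k < i → ‖P i k - 1‖ ≤ δ) → (∀ i k, i ≤ k → ‖P i k‖ ≤ δ) →
        ‖∑ i ∈ Finset.range (2 ^ r), ∑ k ∈ Finset.range (2 ^ r), (h i k : ℂ) * P i k - r‖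
        ≤ 2 * r * δ) ∧
      ∀ (w v : ℕ → H) (U V : ℝ), (∀ i, ‖w i‖ ≤ U) → (∀ k, ‖v k‖ ≤ V) →
      ‖∑ i ∈ Finset.range (2 ^ r), ∑ k ∈ Finset.range (2 ^ r), (h i k : ℂ) * ⟪w i, v k⟫_ℂ‖
        ≤ 4 * √r * U * V)
    (D : A →L[ℂ] M →L[ℂ] Q) (a : ℕ → A) (z : ℕ → M)
    (ha : ∀ (s : Finset ℕ) (c : ℕ → ℂ), (∀ n ∈ s, ‖c n‖ ≤ 1) → ‖∑ n ∈ s, c n • a n‖ ≤ 1)
    (hz : ∀ (s : Finset ℕ) (c : ℕ → ℂ), (∀ n ∈ s, ‖c n‖ ≤ 1) → ‖∑ n ∈ s, c n • z n‖ ≤ 1)
    (Φ : ℕ → ℕ → Q →L[ℂ] ℂ)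
    (hΦ : ∀ (N : ℕ) (g : ℕ → ℕ → ℂ) (C : ℝ), 0 ≤ C →
        (∀ (w v : ℕ → H) (U V : ℝ), (∀ i, ‖w i‖ ≤ U) → (∀ k, ‖v k‖ ≤ V) →
          ‖∑ i ∈ Finset.range N, ∑ k ∈ Finset.range N, g i k * ⟪w i, v k⟫_ℂ‖ ≤ C * U * V) →
        ∀ y, ‖∑ i ∈ Finset.range N, ∑ k ∈ Finset.range N, g i k * Φ i k y‖ ≤ 4 * C * ‖y‖)
    (h1 : ∀ i k, k < i → ‖Φ i k (D (a i) (z k)) - 1‖ ≤ 1 / 4)
    (h2 : ∀ i k, i ≤ k → ‖Φ i k (D (a i) (z k))‖ ≤ 1 / 4) : False := by
  -- the bilinear bound for every `r`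
  have key : ∀ r : ℕ, (r : ℝ) / 2 ≤ 16 * √r * ‖D‖ := by
    intro r
    obtain ⟨h, hA, hB⟩ := hdy r
    have e1 := hA (fun i k => Φ i k (D (a i) (z k))) (1 / 4) h1 h2
    have e2 : ‖∑ i ∈ Finset.range (2 ^ r), ∑ k ∈ Finset.range (2 ^ r),
        (h i k : ℂ) * Φ i k (D (a i) (z k))‖ ≤ 16 * √r * ‖D‖ := by
      refine hsigns (2 ^ r) (fun i k j l => (h i k : ℂ) * Φ i k (D (a j) (z l))) _ ?_
      intro e e' he he'
      have hen : ∀ i, ‖e i‖ ≤ 1 := by
        intro i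
        rcases he i with h | h <;> rw [h] <;> simp
      have hen' : ∀ i, ‖e' i‖ ≤ 1 := by
        intro i
        rcases he' i with h | h <;> rw [h] <;> simp
      have hec : ∀ i, (starRingEnd ℂ) (e i) = e i := by
        intro i
        rcases he i with h | h <;> rw [h] <;> simp
      set y : Q := D (∑ j ∈ Finset.range (2 ^ r), e j • a j) (∑ l ∈ Finset.range (2 ^ r), e' l • z l)
        with hy
      have hyn : ‖y‖ ≤ ‖D‖ := by
        have n1 := ha (Finset.range (2 ^ r)) e (fun n _ => hen n)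
        have n2 := hz (Finset.range (2 ^ r)) e' (fun n _ => hen' n)
        have n3 := (D (∑ j ∈ Finset.range (2 ^ r), e j • a j)).le_opNorm
          (∑ l ∈ Finset.range (2 ^ r), e' l • z l)
        have n4 := D.le_opNorm (∑ j ∈ Finset.range (2 ^ r), e j • a j)
        have n5 : ‖D (∑ j ∈ Finset.range (2 ^ r), e j • a j)‖ ≤ ‖D‖ :=
          n4.trans (mul_le_of_le_one_right (norm_nonneg _) n1)
        rw [hy]
        refine n3.trans ?_
        exact (mul_le_of_le_one_right (norm_nonneg _) n2).trans n5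
      have hyexp : y = ∑ j ∈ Finset.range (2 ^ r), ∑ l ∈ Finset.range (2 ^ r),
          (e j * e' l) • D (a j) (z l) := by
        rw [hy, map_sum D, sum_apply]
        refine Finset.sum_congr rfl fun j _ => ?_
        rw [map_smul D, smul_apply, map_sum (D (a j)), Finset.smul_sum]
        refine Finset.sum_congr rfl fun l _ => ?_
        rw [map_smul, smul_smul]
      have hbound := hΦ (2 ^ r) (fun i k => e i * e' k * (h i k : ℂ)) (4 * √r) (by positivity) (by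
        intro w v U V hw hv
        have := hB (fun i => e i • w i) (fun k => e' k • v k) U V
          (fun i => by
            rw [norm_smul]
            exact (mul_le_of_le_one_left (norm_nonneg _) (hen i)).trans (hw i))
          (fun k => by
            rw [norm_smul]
            exact (mul_le_of_le_one_left (norm_nonneg _) (hen' k)).trans (hv k))
        refine le_trans (le_of_eq ?_) this
        congr 1
        refine Finset.sum_congr rfl fun i _ => Finset.sum_congr rfl fun k _ => ?_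
        rw [inner_smul_left, inner_smul_right, hec]
        ring) y
      have hsum : ∑ i ∈ Finset.range (2 ^ r), ∑ k ∈ Finset.range (2 ^ r),
          ∑ j ∈ Finset.range (2 ^ r), ∑ l ∈ Finset.range (2 ^ r),
            (e i * e' k * e j * e' l) * ((h i k : ℂ) * Φ i k (D (a j) (z l)))
          = ∑ i ∈ Finset.range (2 ^ r), ∑ k ∈ Finset.range (2 ^ r),
            (e i * e' k * (h i k : ℂ)) * Φ i k y := by
        refine Finset.sum_congr rfl fun i _ => Finset.sum_congr rfl fun k _ => ?_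
        rw [hyexp, map_sum, Finset.mul_sum]
        refine Finset.sum_congr rfl fun j _ => ?_
        rw [map_sum, Finset.mul_sum]
        refine Finset.sum_congr rfl fun l _ => ?_
        rw [map_smul, smul_eq_mul]
        ring
      show ‖∑ i ∈ Finset.range (2 ^ r), ∑ k ∈ Finset.range (2 ^ r),
          ∑ j ∈ Finset.range (2 ^ r), ∑ l ∈ Finset.range (2 ^ r),
            (e i * e' k * e j * e' l) * ((h i k : ℂ) * Φ i k (D (a j) (z l)))‖ ≤ _
      rw [hsum]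
      refine hbound.trans ?_
      calc 4 * (4 * √(r : ℝ)) * ‖y‖ ≤ 4 * (4 * √(r : ℝ)) * ‖D‖ :=
            mul_le_mul_of_nonneg_left hyn (by positivity)
        _ = 16 * √r * ‖D‖ := by ring
    have e3 : ‖(r : ℂ)‖ = r := by simp
    have e4 : ‖(r : ℂ)‖ ≤ ‖∑ i ∈ Finset.range (2 ^ r), ∑ k ∈ Finset.range (2 ^ r),
        (h i k : ℂ) * Φ i k (D (a i) (z k))‖ + ‖∑ i ∈ Finset.range (2 ^ r),
          ∑ k ∈ Finset.range (2 ^ r), (h i k : ℂ) * Φ i k (D (a i) (z k)) - r‖ :=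
      norm_le_norm_add_norm_sub _ _
    rw [e3] at e4
    linarith
  obtain ⟨r, hr⟩ := exists_nat_gt ((32 * ‖D‖) ^ 2)
  have hD := norm_nonneg D
  have hk := key r
  have h3 : 32 * ‖D‖ < √r := by
    apply Real.lt_sqrt_of_sq_lt
    exact hr
  have h4 : √(r : ℝ) * √r = r := Real.mul_self_sqrt (Nat.cast_nonneg r)
  have h5 : 0 < √(r : ℝ) := lt_of_le_of_lt (by positivity) h3
  have h6 : 32 * ‖D‖ * √(r : ℝ) < √r * √r := mul_lt_mul_of_pos_right h3 h5
  linarith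

end Pool.Agent.Helper832.CD.J13
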