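import Mathlib

set_option autoImplicit false

namespace Pool.Agent.Helper832.CD.J2

universe u

open Cardinal in
theorem aux_inj_choice {I Y : Type u} (S : I → Set Y) (hS : ∀ i, #I ≤ #(S i)) :
    ∃ t : I → Y, Function.Injective t ∧ ∀ i, t i ∈ S i := by
  classical
  have ho : #((#I).ord.ToType) = #I := mk_ord_toType _
  obtain ⟨e⟩ := Cardinal.eq.mp ho
  have key : ∀ (i : (#I).ord.ToType) (f : ∀ j, j < i → Y),
      ∃ y ∈ S (e i), ∀ j (h : j < i), f j h ≠ y := by
    intro i f
    by_contra hcon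
    push Not at hcon
    have h1 : S (e i) ⊆ Set.range (fun j : Set.Iio i => f j.1 j.2) := by
      intro y hy
      obtain ⟨j, h, hj⟩ := hcon y hy
      exact ⟨⟨j, h⟩, hj⟩
    have h2 : #(S (e i)) ≤ #(Set.Iio i) := (mk_le_mk_of_subset h1).trans mk_range_le
    have h3 : #(Set.Iio i) < #I := by simpa using mk_Iio_lt i
    exact absurd (hS (e i)) (not_le.mpr (lt_of_le_of_lt h2 h3))
  choose g hg1 hg2 using key
  let t : (#I).ord.ToType → Y := WellFounded.fix (wellFounded_lt) (fun i f => g i f)
  have ht : ∀ i, t i = g i (fun j _ => t j) := fun i => WellFounded.fix_eq _ _ i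
  have hne : ∀ i j, j < i → t j ≠ t i := by
    intro i j h
    rw [ht i]
    exact hg2 i (fun j _ => t j) j h
  refine ⟨fun i => t (e.symm i), ?_, ?_⟩
  · intro i j hij
    simp only at hij
    rcases lt_trichotomy (e.symm i) (e.symm j) with h | h | h
    · exact absurd hij (hne _ _ h)
    · exact e.symm.injective h
    · exact absurd hij.symm (hne _ _ h)
  · intro i
    have h := hg1 (e.symm i) (fun j _ => t j)
    rw [← ht, Equiv.apply_symm_apply] at h
    exact h

open Cardinal in
theorem aux_card (X : Type u) [Infinite X] (S : Set (Finset X))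
    (hS : ∀ x : X, ∃ s ∈ S, x ∈ s) : #X ≤ #S := by
  classical
  have hinf : Infinite S := by
    by_contra hcon
    rw [not_infinite_iff_finite] at hcon
    have hfin : S.Finite := Set.toFinite S
    have h1 : (⋃ s ∈ S, ((s : Finset X) : Set X)).Finite :=
      hfin.biUnion (fun s _ => s.finite_toSet)
    have h2 : (⋃ s ∈ S, ((s : Finset X) : Set X)) = Set.univ := by
      ext x
      simp only [Set.mem_iUnion, Set.mem_univ, iff_true, exists_prop, Finset.mem_coe]
      exact hS x
    rw [h2] at h1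
    exact Set.infinite_univ h1
  have hsurj : Function.Surjective (fun z : (Σ s : S, {x // x ∈ (s : Finset X)}) => (z.2 : X)) := by
    intro x
    obtain ⟨s, hs, hx⟩ := hS x
    exact ⟨⟨⟨s, hs⟩, ⟨x, hx⟩⟩, rfl⟩
  have h1 : #X ≤ #(Σ s : S, {x // x ∈ (s : Finset X)}) := mk_le_of_surjective hsurj
  have h2 : #(Σ s : S, {x // x ∈ (s : Finset X)}) ≤ #S * ℵ₀ := by
    rw [mk_sigma]
    have h3 : Cardinal.sum (fun s : S => #{x // x ∈ (s : Finset X)}) ≤
        Cardinal.sum (fun _ : S => (ℵ₀ : Cardinal.{u})) := by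
      apply Cardinal.sum_le_sum
      intro s
      exact (Cardinal.lt_aleph0_of_finite _).le
    rw [Cardinal.sum_const'] at h3
    exact h3
  have h4 : #S * ℵ₀ = #S := Cardinal.mul_aleph0_eq (Cardinal.aleph0_le_mk S)
  rw [h4] at h2
  exact h1.trans h2

/-- disjoint cofinal families inside a cofinal set of finite subsets of an infinite type -/
theorem exists_injective_family (X : Type u) [Infinite X] (T : Set (Finset X))
    (hT : ∀ p : Finset X, ∃ s ∈ T, p ⊆ s) :
    ∃ t : Finset X → Finset X → Finset X, (∀ p p', t p p' ∈ T ∧ p ⊆ t p p' ∧ p' ⊆ t p p') ∧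
      ∀ p p' q q', t p p' = t q q' → p = q ∧ p' = q' := by
  classical
  have hI : Cardinal.mk (Finset X × Finset X) = Cardinal.mk X := by
    simp only [Cardinal.mk_prod, Cardinal.lift_id, Cardinal.mk_finset_of_infinite]
    exact Cardinal.mul_eq_self (Cardinal.aleph0_le_mk X)
  obtain ⟨t, hinj, ht⟩ := aux_inj_choice (I := Finset X × Finset X)
    (fun i => {s : Finset X | s ∈ T ∧ i.1 ⊆ s ∧ i.2 ⊆ s}) (by
      intro i
      rw [hI]
      apply aux_card
      intro x
      obtain ⟨s, hs, hsub⟩ := hT (i.1 ∪ i.2 ∪ {x})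
      refine ⟨s, ⟨hs, ?_, ?_⟩, ?_⟩
      · exact fun y hy => hsub (by simp [hy])
      · exact fun y hy => hsub (by simp [hy])
      · exact hsub (by simp))
  refine ⟨fun p p' => t (p, p'), fun p p' => ht (p, p'), ?_⟩
  intro p p' q q' h
  have := hinj h
  exact Prod.mk.injEq _ _ _ _ ▸ this

end Pool.Agent.Helper832.CD.J2
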