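import Mathlib

set_option autoImplicit false

namespace Pool.Agent.Helper832.CD.J3

universe u

/-- directed Phillips lemma (real version); the hypothesis `htr` is proved elsewhere -/
theorem directed_phillips_real (X : Type u) [Infinite X]
    (htr : ∀ T : Set (Finset X), (∀ p : Finset X, ∃ s ∈ T, p ⊆ s) →
      ∃ t : Finset X → Finset X → Finset X, (∀ p p', t p p' ∈ T ∧ p ⊆ t p p' ∧ p' ⊆ t p p') ∧
      ∀ p p' q q', t p p' = t q q' → p = q ∧ p' = q')
    (ν : Finset X → Set (Finset X) → ℝ) (C : ℝ)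
    (hadd : ∀ s T T', Disjoint T T' → ν s (T ∪ T') = ν s T + ν s T')
    (hb : ∀ s T, |ν s T| ≤ C)
    (h0 : ∀ T, Filter.Tendsto (fun s => ν s T) Filter.atTop (nhds 0)) :
    Filter.Tendsto (fun s => ν s {s}) Filter.atTop (nhds 0) := by
  -- ν s ∅ = 0
  have hemp : ∀ s, ν s ∅ = 0 := by
    intro s
    have h := hadd s ∅ ∅ (by simp)
    simp at h
    exact h
  -- the claim
  have claim : ∀ d : ℝ, 0 < d → ∀ j : ℕ, ∀ T : Set (Finset X),
      (∀ p : Finset X, ∃ s ∈ T, p ⊆ s) →
      (∀ s ∈ T, ∀ P N : Set (Finset X), P ⊆ T \ {s} → N ⊆ T \ {s} → Disjoint P N →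
        ν s P - ν s N ≤ j * d) →
      ∃ T' : Set (Finset X), T' ⊆ T ∧ (∀ p : Finset X, ∃ s ∈ T', p ⊆ s) ∧
        ∀ s ∈ T', ∀ P N : Set (Finset X), P ⊆ T' \ {s} → N ⊆ T' \ {s} → Disjoint P N →
          ν s P - ν s N ≤ d := by
    intro d hd j
    induction j with
    | zero =>
      intro T hT hV
      refine ⟨T, le_refl _, hT, ?_⟩
      intro s hs P N hP hN hPN
      have := hV s hs P N hP hN hPN
      simp at this
      linarith
    | succ j ih =>
      intro T hT hV
      obtain ⟨t, ht1, ht2⟩ := htr T hT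
      by_cases hex : ∃ p : Finset X, ∀ s ∈ Set.range (t p), ∀ P N : Set (Finset X),
          P ⊆ Set.range (t p) \ {s} → N ⊆ Set.range (t p) \ {s} → Disjoint P N →
          ν s P - ν s N ≤ d
      · obtain ⟨p, hp⟩ := hex
        refine ⟨Set.range (t p), ?_, ?_, hp⟩
        · rintro _ ⟨p', rfl⟩
          exact (ht1 p p').1
        · intro q
          exact ⟨t p q, ⟨q, rfl⟩, (ht1 p q).2.2⟩
      · push Not at hex
        choose s hs P N hP hN hPN hlt using hex
        -- s p ∈ range (t p)
        have hsub : Set.range s ⊆ T := by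
          rintro _ ⟨p, rfl⟩
          obtain ⟨p', hp'⟩ := hs p
          rw [← hp']
          exact (ht1 p p').1
        have hcof : ∀ p : Finset X, ∃ s' ∈ Set.range s, p ⊆ s' := by
          intro p
          refine ⟨s p, ⟨p, rfl⟩, ?_⟩
          obtain ⟨p', hp'⟩ := hs p
          rw [← hp']
          exact (ht1 p p').2.1
        have hrT : ∀ p, Set.range (t p) ⊆ T := by
          rintro p _ ⟨p', rfl⟩
          exact (ht1 p p').1
        obtain ⟨T', hT'1, hT'2, hT'3⟩ := ih (Set.range s) hcof (by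
          rintro _ ⟨p, rfl⟩ P' N' hP' hN' hPN'
          have key : ∀ y ∈ Set.range s \ {s p}, y ∉ Set.range (t p) := by
            rintro _ ⟨⟨q, rfl⟩, hq⟩ hq2
            obtain ⟨q', hq'⟩ := hs q
            obtain ⟨p', hp'⟩ := hq2
            have h1 : t p p' = t q q' := by rw [hp', hq']
            have h2 := (ht2 _ _ _ _ h1).1
            subst h2
            exact hq rfl
          have dis : ∀ A B : Set (Finset X), A ⊆ Set.range s \ {s p} →
              B ⊆ Set.range (t p) \ {s p} → Disjoint A B := by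
            intro A B hA hB
            rw [Set.disjoint_left]
            intro y hy hy'
            exact key y (hA hy) (hB hy').1
          have hP1 := hP p
          have hN1 := hN p
          have h3 := hV (s p) (hsub ⟨p, rfl⟩) (P' ∪ P p) (N' ∪ N p)
            (Set.union_subset (fun y hy => ⟨hsub (hP' hy).1, (hP' hy).2⟩)
              (fun y hy => ⟨hrT p (hP1 hy).1, (hP1 hy).2⟩))
            (Set.union_subset (fun y hy => ⟨hsub (hN' hy).1, (hN' hy).2⟩)
              (fun y hy => ⟨hrT p (hN1 hy).1, (hN1 hy).2⟩))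
            (by
              rw [Set.disjoint_union_left]
              constructor
              · rw [Set.disjoint_union_right]
                exact ⟨hPN', dis _ _ hP' hN1⟩
              · rw [Set.disjoint_union_right]
                exact ⟨(dis _ _ hN' hP1).symm, hPN p⟩)
          rw [hadd _ _ _ (dis _ _ hP' hP1), hadd _ _ _ (dis _ _ hN' hN1)] at h3
          have h4 := hlt p
          push_cast at h3
          linarith)
        exact ⟨T', hT'1.trans hsub, hT'2, hT'3⟩
  classical
  rw [Metric.tendsto_atTop]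
  by_contra hcon
  push Not at hcon
  obtain ⟨ε, hε, hfr⟩ := hcon
  have hC : 0 ≤ C := (abs_nonneg _).trans (hb ∅ ∅)
  set T0 : Set (Finset X) := {s | ε ≤ |ν s {s}|} with hT0
  have hcof0 : ∀ p : Finset X, ∃ s ∈ T0, p ⊆ s := by
    intro p
    obtain ⟨s, hs, hs2⟩ := hfr p
    refine ⟨s, ?_, hs⟩
    rw [Real.dist_eq, sub_zero] at hs2
    exact hs2
  obtain ⟨j, hj⟩ := exists_nat_gt (2 * C / (ε / 2))
  have hd : 0 < ε / 2 := by positivity
  obtain ⟨T', hT'1, hT'2, hT'3⟩ := claim (ε / 2) hd j T0 hcof0 (by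
    intro s _ P N _ _ _
    have h1 := abs_le.1 (hb s P)
    have h2 := abs_le.1 (hb s N)
    rw [div_lt_iff₀ hd] at hj
    linarith)
  have h5 := (Metric.tendsto_atTop.1 (h0 T')) (ε / 2) hd
  obtain ⟨p, hp⟩ := h5
  obtain ⟨s, hs, hps⟩ := hT'2 p
  have h6 := hp s hps
  rw [Real.dist_eq, sub_zero] at h6
  have h7 : T' = {s} ∪ (T' \ {s}) := by
    ext y
    simp only [Set.mem_union, Set.mem_singleton_iff, Set.mem_sdiff]
    constructor
    · intro hy
      by_cases h : y = s
      · exact Or.inl h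
      · exact Or.inr ⟨hy, h⟩
    · rintro (h | h)
      · rw [h]; exact hs
      · exact h.1
  have h8 : ν s T' = ν s {s} + ν s (T' \ {s}) := by
    conv_lhs => rw [h7]
    apply hadd
    rw [Set.disjoint_left]
    intro y hy hy'
    exact hy'.2 hy
  have h9 := hT'3 s hs (T' \ {s}) ∅ (le_refl _) (Set.empty_subset _) (by simp)
  have h10 := hT'3 s hs ∅ (T' \ {s}) (Set.empty_subset _) (le_refl _) (by simp)
  rw [hemp] at h9 h10
  have h11 : ε ≤ |ν s {s}| := hT'1 hs
  have h12 : |ν s (T' \ {s})| ≤ ε / 2 := by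
    rw [abs_le]; constructor <;> linarith
  have h13 : ν s {s} = ν s T' - ν s (T' \ {s}) := by linarith
  rw [h13] at h11
  have h14 := abs_sub (ν s T') (ν s (T' \ {s}))
  linarith

end Pool.Agent.Helper832.CD.J3
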