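import Mathlib

set_option autoImplicit false

namespace Pool.Agent.Helper832.CD.J8

universe u

namespace h399pt

section

variable {𝕜 : Type} [RCLike 𝕜] {E V D : Type u} [NormedAddCommGroup E] [NormedSpace 𝕜 E]
    [NormedAddCommGroup V] [NormedSpace 𝕜 V] [NormedAddCommGroup D] [NormedSpace 𝕜 D]
    (ev : E →L[𝕜] V →L[𝕜] D)

/-- the span of the elementary tensors -/
noncomputable def SS : Submodule 𝕜 D := Submodule.span 𝕜 {y | ∃ c v, y = ev c v}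

/-- the projective tensor product -/
noncomputable def QQ : Submodule 𝕜 D := (SS ev).topologicalClosure

lemma ev_mem (c : E) (v : V) : ev c v ∈ QQ ev :=
  (SS ev).le_topologicalClosure (Submodule.subset_span ⟨c, v, rfl⟩)

/-- the tensor map -/
noncomputable def tt : E →L[𝕜] V →L[𝕜] QQ ev :=
  LinearMap.mkContinuous₂ (LinearMap.mk₂ 𝕜 (fun c v => (⟨ev c v, ev_mem ev c v⟩ : QQ ev))
    (fun c c' v => Subtype.ext (by simp))
    (fun a c v => Subtype.ext (by simp))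
    (fun c v v' => Subtype.ext (by simp))
    (fun a c v => Subtype.ext (by simp))) ‖ev‖ (fun c v => ev.le_opNorm₂ c v)

lemma tt_coe (c : E) (v : V) : ((tt ev c v : QQ ev) : D) = ev c v := rfl

lemma span_dense :
    (Submodule.span 𝕜 {y : QQ ev | ∃ c v, y = tt ev c v}).topologicalClosure = ⊤ := by
  rw [eq_top_iff]
  intro y _
  have h1 : y ∈ closure ((Submodule.span 𝕜 {y : QQ ev | ∃ c v, y = tt ev c v} :
      Submodule 𝕜 (QQ ev)) : Set (QQ ev)) := by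
    rw [closure_subtype]
    have h2 : (fun x : QQ ev => (x : D)) ''
        ((Submodule.span 𝕜 {y : QQ ev | ∃ c v, y = tt ev c v} : Submodule 𝕜 (QQ ev)) :
          Set (QQ ev)) = ((SS ev : Submodule 𝕜 D) : Set D) := by
      have h3 : Submodule.map (QQ ev).subtype
          (Submodule.span 𝕜 {y : QQ ev | ∃ c v, y = tt ev c v}) = SS ev := by
        rw [Submodule.map_span]
        unfold SS
        congr 1
        ext z
        constructor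
        · rintro ⟨y, ⟨c, v, rfl⟩, rfl⟩
          exact ⟨c, v, rfl⟩
        · rintro ⟨c, v, rfl⟩
          exact ⟨tt ev c v, ⟨c, v, rfl⟩, rfl⟩
      rw [← h3]
      rfl
    rw [h2]
    exact y.2
  exact h1

lemma univ_prop {W X : Type u} [NormedAddCommGroup W] [NormedSpace 𝕜 W] [CompleteSpace W]
    [NormedAddCommGroup X] [NormedSpace 𝕜 X]
    (B : E →L[𝕜] V →L[𝕜] W) (J : W →ₗᵢ[𝕜] X) (F0 : D →L[𝕜] X)
    (hF0n : ∀ y, ‖F0 y‖ ≤ ‖B‖ * ‖y‖) (hev : ∀ c v, F0 (ev c v) = J (B c v)) :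
    ∃ F : QQ ev →L[𝕜] W, (∀ c v, F (tt ev c v) = B c v) ∧ ‖F‖ ≤ ‖B‖ := by
  have hrange : ∀ y : QQ ev, F0 (y : D) ∈ LinearMap.range J.toLinearMap := by
    have hclosed : IsClosed ((LinearMap.range J.toLinearMap : Submodule 𝕜 _) : Set X) := by
      have := J.isometry.isClosedEmbedding.isClosed_range
      exact this
    have h1 : QQ ev ≤ Submodule.comap F0.toLinearMap (LinearMap.range J.toLinearMap) := by
      refine Submodule.topologicalClosure_minimal _ ?_ ?_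
      · unfold SS
        rw [Submodule.span_le]
        rintro z ⟨c, v, rfl⟩
        exact ⟨B c v, (hev c v).symm⟩
      · exact hclosed.preimage F0.continuous
    intro y
    exact h1 y.2
  let F1 : QQ ev →L[𝕜] LinearMap.range J.toLinearMap :=
    (F0.comp (QQ ev).subtypeL).codRestrict _ hrange
  let F : QQ ev →L[𝕜] W :=
    (J.equivRange.symm.toContinuousLinearEquiv.toContinuousLinearMap).comp F1
  have hJF : ∀ y, J (F y) = F0 (y : D) := by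
    intro y
    have h1 : J.equivRange (F y) = F1 y := J.equivRange.apply_symm_apply (F1 y)
    have h2 := congrArg (fun z : LinearMap.range J.toLinearMap => (z : X)) h1
    exact h2
  refine ⟨F, fun c v => ?_, ?_⟩
  · apply J.injective
    rw [hJF, tt_coe, hev]
  · refine ContinuousLinearMap.opNorm_le_bound _ B.opNorm_nonneg fun y => ?_
    rw [← J.norm_map (F y), hJF]
    exact hF0n _

end

section

variable {𝕜 : Type} [RCLike 𝕜] {E V 𝔅 : Type u} [NormedAddCommGroup E] [NormedSpace 𝕜 E]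
    [NormedAddCommGroup V] [NormedSpace 𝕜 V] [NormedAddCommGroup 𝔅] [NormedSpace 𝕜 𝔅]
    (ψ : 𝔅 ≃ₗᵢ[𝕜] (E →L[𝕜] V →L[𝕜] 𝕜))

/-- evaluation -/
noncomputable def ev : E →L[𝕜] V →L[𝕜] (𝔅 →L[𝕜] 𝕜) :=
  ((ContinuousLinearMap.flipₗᵢ 𝕜 𝔅 V 𝕜).toContinuousLinearEquiv.toContinuousLinearMap).comp
    (ContinuousLinearMap.flip ψ.toContinuousLinearEquiv.toContinuousLinearMap)

lemma ev_apply (c : E) (v : V) (B : 𝔅) : ev ψ c v B = ψ B c v := rfl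

lemma exists_P (W : Type u) [NormedAddCommGroup W] [NormedSpace 𝕜 W]
    (B : E →L[𝕜] V →L[𝕜] W) :
    ∃ P : (W →L[𝕜] 𝕜) →L[𝕜] 𝔅, (∀ g c v, ψ (P g) c v = g (B c v)) ∧
      ∀ g, ‖P g‖ ≤ ‖B‖ * ‖g‖ := by
  let P0 : (W →L[𝕜] 𝕜) →ₗ[𝕜] 𝔅 :=
    { toFun := fun g => ψ.symm ((ContinuousLinearMap.compL 𝕜 V W 𝕜 g).comp B)
      map_add' := fun g g' => by
        rw [← map_add]
        congr 1
      map_smul' := fun a g => by
        rw [RingHom.id_apply, ← map_smul]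
        congr 1 }
  have hP0 : ∀ g c v, ψ (P0 g) c v = g (B c v) := by
    intro g c v
    have : ψ (P0 g) = (ContinuousLinearMap.compL 𝕜 V W 𝕜 g).comp B :=
      ψ.apply_symm_apply _
    rw [this]
    rfl
  have hP0n : ∀ g, ‖P0 g‖ ≤ ‖B‖ * ‖g‖ := by
    intro g
    rw [← ψ.norm_map (P0 g)]
    refine ContinuousLinearMap.opNorm_le_bound₂ _
      (mul_nonneg B.opNorm_nonneg (norm_nonneg _)) fun c v => ?_
    rw [hP0]
    calc ‖g (B c v)‖ ≤ ‖g‖ * ‖B c v‖ := g.le_opNorm _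
      _ ≤ ‖g‖ * (‖B‖ * ‖c‖ * ‖v‖) :=
          mul_le_mul_of_nonneg_left (B.le_opNorm₂ c v) (norm_nonneg _)
      _ = ‖B‖ * ‖g‖ * ‖c‖ * ‖v‖ := by ring
  exact ⟨P0.mkContinuous ‖B‖ hP0n, fun g c v => hP0 g c v, hP0n⟩

lemma exists_F00 (W : Type u) [NormedAddCommGroup W] [NormedSpace 𝕜 W]
    (b : ℝ) (hb : 0 ≤ b) (P : (W →L[𝕜] 𝕜) →L[𝕜] 𝔅) (hP : ∀ g, ‖P g‖ ≤ b * ‖g‖) :
    ∃ F0 : (𝔅 →L[𝕜] 𝕜) →L[𝕜] ((W →L[𝕜] 𝕜) →L[𝕜] 𝕜),
      (∀ y g, F0 y g = y (P g)) ∧ ∀ y, ‖F0 y‖ ≤ b * ‖y‖ := by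
  refine ⟨(ContinuousLinearMap.compL 𝕜 (W →L[𝕜] 𝕜) 𝔅 𝕜).flip P, fun y g => rfl, fun y => ?_⟩
  refine ContinuousLinearMap.opNorm_le_bound _ (mul_nonneg hb (norm_nonneg _)) fun g => ?_
  calc ‖y (P g)‖ ≤ ‖y‖ * ‖P g‖ := y.le_opNorm _
      _ ≤ ‖y‖ * (b * ‖g‖) := mul_le_mul_of_nonneg_left (hP g) (norm_nonneg _)
      _ = b * ‖y‖ * ‖g‖ := by ring

lemma exists_F0 (W : Type u) [NormedAddCommGroup W] [NormedSpace 𝕜 W]
    (B : E →L[𝕜] V →L[𝕜] W) :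
    ∃ (X : Type u) (_ : NormedAddCommGroup X) (_ : NormedSpace 𝕜 X) (J : W →ₗᵢ[𝕜] X)
      (F0 : (𝔅 →L[𝕜] 𝕜) →L[𝕜] X), (∀ y, ‖F0 y‖ ≤ ‖B‖ * ‖y‖) ∧
        ∀ c v, F0 (ev ψ c v) = J (B c v) := by
  obtain ⟨P, hP, hPn⟩ := exists_P ψ W B
  obtain ⟨F0, hF0, hF0n⟩ := exists_F00 W ‖B‖ B.opNorm_nonneg P hPn
  refine ⟨(W →L[𝕜] 𝕜) →L[𝕜] 𝕜, inferInstance, inferInstance,
    NormedSpace.inclusionInDoubleDualLi 𝕜, F0, hF0n, fun c v => ?_⟩
  ext g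
  rw [hF0, ev_apply, hP]
  rfl

end

lemma exists_D (𝕜 : Type) [RCLike 𝕜] (E V : Type u) [NormedAddCommGroup E] [NormedSpace 𝕜 E]
    [NormedAddCommGroup V] [NormedSpace 𝕜 V] :
    ∃ (D : Type u) (_ : NormedAddCommGroup D) (_ : NormedSpace 𝕜 D) (_ : CompleteSpace D)
      (ev : E →L[𝕜] V →L[𝕜] D), ∀ (W : Type u) [NormedAddCommGroup W] [NormedSpace 𝕜 W]
    (B : E →L[𝕜] V →L[𝕜] W),
    ∃ (X : Type u) (_ : NormedAddCommGroup X) (_ : NormedSpace 𝕜 X) (J : W →ₗᵢ[𝕜] X)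
      (F0 : D →L[𝕜] X), (∀ y, ‖F0 y‖ ≤ ‖B‖ * ‖y‖) ∧
        ∀ c v, F0 (ev c v) = J (B c v) := by
  have hψ : ∃ (𝔅 : Type u) (_ : NormedAddCommGroup 𝔅) (_ : NormedSpace 𝕜 𝔅),
      Nonempty (𝔅 ≃ₗᵢ[𝕜] (E →L[𝕜] V →L[𝕜] 𝕜)) :=
    ⟨(E →L[𝕜] V →L[𝕜] 𝕜), inferInstance, inferInstance, ⟨LinearIsometryEquiv.refl 𝕜 _⟩⟩
  obtain ⟨𝔅, _, _, ⟨ψ⟩⟩ := hψ
  exact ⟨𝔅 →L[𝕜] 𝕜, inferInstance, inferInstance, inferInstance, ev ψ,
    fun W _ _ B => exists_F0 ψ W B⟩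

theorem main (𝕜 : Type) [RCLike 𝕜] (E V : Type u) [NormedAddCommGroup E] [NormedSpace 𝕜 E]
    [NormedAddCommGroup V] [NormedSpace 𝕜 V] :
    ∃ (Q : Type u) (_ : NormedAddCommGroup Q) (_ : NormedSpace 𝕜 Q) (_ : CompleteSpace Q)
      (t : E →L[𝕜] V →L[𝕜] Q),
      (Submodule.span 𝕜 {y : Q | ∃ c v, y = t c v}).topologicalClosure = ⊤ ∧
      ∀ (W : Type u) [NormedAddCommGroup W] [NormedSpace 𝕜 W] [CompleteSpace W]
        (B : E →L[𝕜] V →L[𝕜] W), ∃ F : Q →L[𝕜] W, (∀ c v, F (t c v) = B c v) ∧ ‖F‖ ≤ ‖B‖ := by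
  obtain ⟨D, _, _, _, e, he⟩ := exists_D 𝕜 E V
  have hc : CompleteSpace (QQ e) :=
    (Submodule.isClosed_topologicalClosure (SS e)).completeSpace_coe
  refine ⟨QQ e, inferInstance, inferInstance, hc, tt e, span_dense e, ?_⟩
  intro W _ _ _ B
  obtain ⟨X, _, _, J, F0, h1, h2⟩ := he W B
  exact univ_prop e B J F0 h1 h2

end h399pt

/-- existence of the projective tensor product of two Banach spaces -/
theorem exists_proj_tensor (E V : Type u) [NormedAddCommGroup E] [NormedSpace ℂ E]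
    [NormedAddCommGroup V] [NormedSpace ℂ V] :
    ∃ (Q : Type u) (_ : NormedAddCommGroup Q) (_ : NormedSpace ℂ Q) (_ : CompleteSpace Q)
      (t : E →L[ℂ] V →L[ℂ] Q),
      (Submodule.span ℂ {y : Q | ∃ c v, y = t c v}).topologicalClosure = ⊤ ∧
      ∀ (W : Type u) [NormedAddCommGroup W] [NormedSpace ℂ W] [CompleteSpace W]
        (B : E →L[ℂ] V →L[ℂ] W), ∃ F : Q →L[ℂ] W, (∀ c v, F (t c v) = B c v) ∧ ‖F‖ ≤ ‖B‖ := by
  exact h399pt.main ℂ E V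

end Pool.Agent.Helper832.CD.J8
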