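import Mathlib
import Pool.Agent.Helper832.CD.Base
import Pool.Agent.Helper832.CD.J1
import Pool.Agent.Helper832.CD.J2
import Pool.Agent.Helper832.CD.J3
import Pool.Agent.Helper832.CD.J8
import Pool.Agent.Helper832.CD.J9
import Pool.Agent.Helper832.CD.J10
import Pool.Agent.Helper832.CD.J11
import Pool.Agent.Helper832.CD.J12
import Pool.Agent.Helper832.CD.J13

set_option autoImplicit false

namespace Pool.Agent.Helper832.CD

open scoped InnerProductSpace
open Filter Topology

universe u

/-- directed Phillips lemma, complex version -/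
theorem directed_phillips (X : Type u) [Infinite X]
    (ν : Finset X → Set (Finset X) → ℂ) (C : ℝ)
    (hadd : ∀ s T T', Disjoint T T' → ν s (T ∪ T') = ν s T + ν s T')
    (hb : ∀ s T, ‖ν s T‖ ≤ C)
    (h0 : ∀ T, Tendsto (fun s => ν s T) atTop (nhds 0)) :
    Tendsto (fun s => ν s {s}) atTop (nhds 0) := by
  have hre := J3.directed_phillips_real X (J2.exists_injective_family X)
    (fun s T => (ν s T).re) C (fun s T T' h => by rw [hadd s T T' h, Complex.add_re])
    (fun s T => (Complex.abs_re_le_norm _).trans (hb s T))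
    (fun T => by simpa [Function.comp_def] using (Complex.continuous_re.tendsto 0).comp (h0 T))
  have him := J3.directed_phillips_real X (J2.exists_injective_family X)
    (fun s T => (ν s T).im) C (fun s T T' h => by rw [hadd s T T' h, Complex.add_im])
    (fun s T => (Complex.abs_im_le_norm _).trans (hb s T))
    (fun T => by simpa [Function.comp_def] using (Complex.continuous_im.tendsto 0).comp (h0 T))
  have h1 : Tendsto (fun s => ((ν s {s}).re : ℂ)) atTop (nhds ((0 : ℝ) : ℂ)) :=
    (Complex.continuous_ofReal.tendsto 0).comp hre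
  have h2 : Tendsto (fun s => ((ν s {s}).im : ℂ)) atTop (nhds ((0 : ℝ) : ℂ)) :=
    (Complex.continuous_ofReal.tendsto 0).comp him
  have h3 := h1.add (h2.mul_const Complex.I)
  simp only [Complex.ofReal_zero, zero_mul, add_zero] at h3
  refine h3.congr (fun s => ?_)
  exact Complex.re_add_im _

/-- weak convergence of the commutators -/
theorem tendsto_commutator {A : Type u} [NonUnitalCStarAlgebra A] (d : Data A)
    [Infinite (A × d.H)] (Z : Finset (A × d.H) → d.H →L[ℂ] d.K)
    (hZ : ∀ l, ∀ p ∈ l, ‖Z l (d.ρ p.1 p.2) - d.π p.1 (Z l p.2)‖ ≤ 1 / ((l.card : ℝ) + 1))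
    (b : A) (h : d.H) (x : Finset (A × d.H) → d.K) (C : ℝ) (hx : ∀ l, ‖x l‖ ≤ C) :
    Tendsto (fun l => ⟪h, d.ρ b ((Z l).adjoint (x l)) - (Z l).adjoint (d.π b (x l))⟫_ℂ) atTop
      (nhds 0) := by
  have e : ∀ l, ⟪h, d.ρ b ((Z l).adjoint (x l)) - (Z l).adjoint (d.π b (x l))⟫_ℂ =
      ⟪Z l (d.ρ (star b) h) - d.π (star b) (Z l h), x l⟫_ℂ := by
    intro l
    rw [inner_sub_right, inner_sub_left, ← d.ρ_star, d.π_star,
      ContinuousLinearMap.adjoint_inner_right, ContinuousLinearMap.adjoint_inner_right]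
  simp_rw [e]
  have hC : 0 ≤ C := (norm_nonneg _).trans (hx ∅)
  rw [Metric.tendsto_nhds]
  intro ε hε
  obtain ⟨n, hn⟩ := exists_nat_gt (C / ε)
  classical
  obtain ⟨S, hS⟩ := Infinite.exists_subset_card_eq (A × d.H) n
  filter_upwards [eventually_ge_atTop (insert (star b, h) S)] with l hl
  have hmem : (star b, h) ∈ l := hl (Finset.mem_insert_self _ _)
  have hcard : (n : ℝ) ≤ l.card := by
    have : S.card ≤ l.card := Finset.card_le_card ((Finset.subset_insert _ _).trans hl)
    rw [← hS]; exact_mod_cast this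
  rw [dist_zero_right]
  have h1 := hZ l _ hmem
  have hpos : (0 : ℝ) < (l.card : ℝ) + 1 := by positivity
  calc ‖⟪Z l (d.ρ (star b) h) - d.π (star b) (Z l h), x l⟫_ℂ‖
      ≤ ‖Z l (d.ρ (star b) h) - d.π (star b) (Z l h)‖ * ‖x l‖ := norm_inner_le_norm _ _
    _ ≤ 1 / ((l.card : ℝ) + 1) * C := by gcongr; exact hx l
    _ < ε := by
        rw [one_div, inv_mul_lt_iff₀ hpos]
        have h2 : C < n * ε := by rwa [div_lt_iff₀ hε] at hn
        nlinarith

theorem data_infinite {A : Type u} [NonUnitalCStarAlgebra A] (d : Data A) :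
    Infinite (A × d.H) := by
  have hne : d.ξ ≠ 0 := by
    intro h; have := d.ξ_norm; rw [h, norm_zero] at this; exact zero_ne_one this
  refine Infinite.of_injective (fun n : ℕ => ((0 : A), ((n : ℂ) • d.ξ))) ?_
  intro m n hmn
  have h1 : (m : ℂ) • d.ξ = (n : ℂ) • d.ξ := congrArg Prod.snd hmn
  have h2 := smul_left_injective ℂ hne h1
  exact_mod_cast h2

end Pool.Agent.Helper832.CD
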