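import Mathlib
import Pool.Agent.Helper832.CD.Core

set_option autoImplicit false

namespace Pool.Agent.Helper832.CD

open scoped InnerProductSpace
open Filter Topology

universe u

/-- reindexing a combination along an injective sequence -/
theorem norm_comp_le {E ι : Type*} [NormedAddCommGroup E] [NormedSpace ℂ E] [DecidableEq ι]
    (a : ι → E)
    (ha : ∀ (s : Finset ι) (c : ι → ℂ), (∀ n ∈ s, ‖c n‖ ≤ 1) → ‖∑ n ∈ s, c n • a n‖ ≤ 1)
    (f : ℕ → ι) (hf : Function.Injective f) (s : Finset ℕ) (c : ℕ → ℂ)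
    (hc : ∀ n ∈ s, ‖c n‖ ≤ 1) : ‖∑ n ∈ s, c n • a (f n)‖ ≤ 1 := by
  have h1 := ha (s.image f) (fun i => c (Function.invFun f i)) (by
    intro i hi
    obtain ⟨n, hn, rfl⟩ := Finset.mem_image.mp hi
    rw [Function.leftInverse_invFun hf n]
    exact hc n hn)
  rw [Finset.sum_image (fun x _ y _ h => hf h)] at h1
  simpa [Function.leftInverse_invFun hf _] using h1

/-- the core theorem: derivations do not always lift -/
theorem core {A : Type u} [NonUnitalCStarAlgebra A] (d : Data A) (hL : Lifts A) : False := by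
  classical
  haveI : Infinite (A × d.H) := data_infinite d
  have hch : ∀ l : Finset (A × d.H), ∃ (m : ℕ) (Z : d.H →L[ℂ] d.K), ‖Z‖ ≤ 2 ∧ Z d.ξ = d.ζ m ∧
      ∀ p ∈ l, ‖Z (d.ρ p.1 p.2) - d.π p.1 (Z p.2)‖ ≤ 1 / ((l.card : ℝ) + 1) := by
    intro l
    obtain ⟨m, _, Z, h1, h2, h3⟩ := d.el l (1 / ((l.card : ℝ) + 1)) (by positivity) 0
    exact ⟨m, Z, h1, h2, fun p hp => (h3 p hp).1⟩
  choose m Z hZ1 hZ2 hZ3 using hch
  obtain ⟨M, iM1, iM2, iM3, V, iV1, iV2, iV3, αM, αV, D, zT, c, hαM, hαV, hD, hzadd, hz1, hzs,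
    hza, hc1, hc2, hc3, hcD⟩ := J9.exists_MV A d.H d.K d.ρ d.π d.ρ_mul d.π_mul
      (Finset (A × d.H)) atTop (fun l => (Z l).adjoint)
      (fun l => by rw [LinearIsometryEquiv.norm_map]; exact hZ1 l) (fun l => d.ζ (m l))
      (fun l => (d.ζ_norm _).le) (fun b h x C hx => tendsto_commutator d Z hZ3 b h x C hx)
  obtain ⟨Q, iQ1, iQ2, iQ3, β, q, s, t, hβ, hq, hqs, hβt, hqt, hdense, hB, hG⟩ :=
    J10.exists_module_tensor A V αV hαV (J8.exists_proj_tensor (ℂ × A) V)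
  obtain ⟨D', S, hD', hDS⟩ := hL M V Q αM αV β hαM hαV hβ q s hq hqs D hD
  obtain ⟨Φ, hΦ1, hΦ2, hΦ3, hΦ4, hΦ5⟩ := J11.exists_functionals A d.H d.K d.ρ d.π d.ρ_mul d.π_mul
    d.π_star d.π_norm (Finset (A × d.H)) atTop V αV c hc1 hc2 hc3 Q β q t hβt hqt hdense hB hG
    d.ξ d.ξ_norm
  -- small quantities along the index set
  have hs : Tendsto (fun l => ⟪d.ξ, c l (S (zT {l}))⟫_ℂ) atTop (nhds 0) := by
    refine directed_phillips (A × d.H) (fun l T => ⟪d.ξ, c l (S (zT T))⟫_ℂ) ‖S‖ ?_ ?_ ?_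
    · intro l T T' h
      show ⟪d.ξ, c l (S (zT (T ∪ T')))⟫_ℂ = _
      rw [hzadd T T' h, map_add, map_add, inner_add_right]
    · intro l T
      calc ‖⟪d.ξ, c l (S (zT T))⟫_ℂ‖ ≤ ‖d.ξ‖ * ‖c l (S (zT T))‖ := norm_inner_le_norm _ _
        _ ≤ 1 * (‖S‖ * 1) := by
            rw [d.ξ_norm]
            gcongr
            exact (hc1 _ _).trans ((S.le_opNorm _).trans (by gcongr; exact hz1 T))
        _ = ‖S‖ := by ring
    · intro T
      exact hc3 _ _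
  have hp : ∀ (T : d.H →L[ℂ] d.K) (n : ℕ),
      Tendsto (fun l => Φ T (d.ζ n) l (D' (d.a n) (zT {l}))) atTop (nhds 0) := by
    intro T n
    refine directed_phillips (A × d.H) (fun l T' => Φ T (d.ζ n) l (D' (d.a n) (zT T')))
      (2 * ‖T‖ * 1 * (‖D' (d.a n)‖ * 1)) ?_ ?_ ?_
    · intro l T T' h
      show Φ _ (d.ζ n) l (D' (d.a n) (zT (T ∪ T'))) = _
      rw [hzadd T T' h, map_add, map_add]
    · intro l T'
      refine (hΦ1 _ _ _ _).trans ?_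
      rw [d.ζ_norm]
      gcongr
      exact ((D' (d.a n)).le_opNorm _).trans (by gcongr; exact hz1 T')
    · intro T'
      exact hΦ2 _ _ _
  -- the main relation
  have hmain : ∀ l : Finset (A × d.H), ∃ (s : Finset (A × d.H)) (ε : ℝ), 0 < ε ∧
      ∀ (n : ℕ) (Z' : d.H →L[ℂ] d.K), n ≠ m l → ‖Z'‖ ≤ 2 →
        (∀ p ∈ s, ‖Z' (d.ρ p.1 p.2) - d.π p.1 (Z' p.2)‖ ≤ ε ∧
          ‖⟪d.ζ n, Z' p.2⟫_ℂ - ⟪d.ξ, p.2⟫_ℂ‖ ≤ ε) →
        ‖Φ Z' (d.ζ n) l (D' (d.a n) (zT {l})) - 1‖ ≤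
          1 / 8 + ‖⟪d.ξ, c l (S (zT {l}))⟫_ℂ‖ := by
    intro l
    obtain ⟨s, ε, hε, h4⟩ := hΦ4 (D' (d.a (m l)) (zT {l})) l (1 / 8) (by norm_num)
    refine ⟨s, ε, hε, fun n Z' hn hZ' hs' => ?_⟩
    have hza' : αM (d.a (m l)) (zT {l}) = zT {l} := hza _ _ (d.a_ζ _)
    have e1 : D' (d.a n) (zT {l}) = - β (d.a n) (D' (d.a (m l)) (zT {l})) := by
      have h1 := hD' (d.a n) (d.a (m l)) (zT {l})
      rw [d.a_orth _ _ hn, hza', map_zero] at h1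
      have h2 : (0 : M →L[ℂ] Q) (zT {l}) = 0 := rfl
      rw [h2] at h1
      exact eq_neg_of_add_eq_zero_right h1.symm
    have e2 : Φ Z' (d.ζ n) l (D' (d.a n) (zT {l})) =
        - Φ Z' (d.ζ n) l (D' (d.a (m l)) (zT {l})) := by
      rw [e1, map_neg, hΦ3 _ _ _ _ _ (d.a_star n) (d.a_ζ n)]
    have e3 := h4 Z' (d.ζ n) hZ' (d.ζ_norm n) hs'
    have hρ0 : ∀ h : d.H, ⟪d.ξ, d.ρ (d.a (m l)) h⟫_ℂ = 0 := by
      intro h
      rw [← d.ρ_star, d.a_star, d.a_ξ, inner_zero_left]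
    have e4 : ⟪d.ξ, c l (q (D' (d.a (m l)) (zT {l})))⟫_ℂ =
        -1 + ⟪d.ξ, c l (S (zT {l}))⟫_ℂ := by
      have h1 := hDS (d.a (m l)) (zT {l})
      rw [hza'] at h1
      have h2 : q (D' (d.a (m l)) (zT {l})) =
          D (d.a (m l)) (zT {l}) - αV (d.a (m l)) (S (zT {l})) + S (zT {l}) := by
        rw [h1]; abel
      rw [h2, map_add, map_sub, inner_add_right, inner_sub_right, hcD, hc2, hρ0, inner_sub_right,
        hρ0, d.a_ζ, ContinuousLinearMap.adjoint_inner_right, hZ2, inner_self_eq_norm_sq_to_K,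
        d.ζ_norm]
      simp
    rw [e4] at e3
    rw [e2]
    calc ‖- Φ Z' (d.ζ n) l (D' (d.a (m l)) (zT {l})) - 1‖
        = ‖-(Φ Z' (d.ζ n) l (D' (d.a (m l)) (zT {l})) - (-1 + ⟪d.ξ, c l (S (zT {l}))⟫_ℂ))
            - ⟪d.ξ, c l (S (zT {l}))⟫_ℂ‖ := by
          congr 1; ring
      _ ≤ ‖-(Φ Z' (d.ζ n) l (D' (d.a (m l)) (zT {l})) - (-1 + ⟪d.ξ, c l (S (zT {l}))⟫_ℂ))‖
            + ‖⟪d.ξ, c l (S (zT {l}))⟫_ℂ‖ := norm_sub_le _ _
      _ ≤ 1 / 8 + ‖⟪d.ξ, c l (S (zT {l}))⟫_ℂ‖ := by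
          rw [norm_neg]; gcongr
  choose sf εf hεf hmain using hmain
  -- inductive choice
  let P : ℕ × (d.H →L[ℂ] d.K) × Finset (A × d.H) → Prop := fun x =>
    ‖x.2.1‖ ≤ 2 ∧ ‖Φ x.2.1 (d.ζ x.1) x.2.2 (D' (d.a x.1) (zT {x.2.2}))‖ ≤ 1 / 4 ∧
      ‖⟪d.ξ, c x.2.2 (S (zT {x.2.2}))⟫_ℂ‖ ≤ 1 / 8
  let r : ℕ × (d.H →L[ℂ] d.K) × Finset (A × d.H) → ℕ × (d.H →L[ℂ] d.K) × Finset (A × d.H) → Prop :=
    fun x y => x.1 < y.1 ∧ x.2.2 < y.2.2 ∧
      ‖Φ y.2.1 (d.ζ y.1) x.2.2 (D' (d.a y.1) (zT {x.2.2})) - 1‖ ≤ 1 / 4 ∧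
      ‖Φ x.2.1 (d.ζ x.1) y.2.2 (D' (d.a x.1) (zT {y.2.2}))‖ ≤ 1 / 4
  obtain ⟨f, hfP, hfr⟩ : ∃ f : ℕ → ℕ × (d.H →L[ℂ] d.K) × Finset (A × d.H),
      (∀ n, P (f n)) ∧ ∀ k n, k < n → r (f k) (f n) := by
    refine exists_seq_of_forall_finset_exists P r ?_
    intro F hF
    -- bounds for the next index
    obtain ⟨N, hN⟩ : ∃ N : ℕ, ∀ x ∈ F, x.1 < N ∧ m x.2.2 < N := by
      refine ⟨(F.sup (fun x => x.1)) + (F.sup (fun x => m x.2.2)) + 1, fun x hx => ?_⟩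
      have h1 : x.1 ≤ F.sup (fun x => x.1) := Finset.le_sup (f := fun x => x.1) hx
      have h2 : m x.2.2 ≤ F.sup (fun x => m x.2.2) := Finset.le_sup (f := fun x => m x.2.2) hx
      omega
    obtain ⟨ε, hε, hεF⟩ : ∃ ε : ℝ, 0 < ε ∧ ∀ x ∈ F, ε ≤ εf x.2.2 := by
      rcases F.eq_empty_or_nonempty with h | h
      · exact ⟨1, one_pos, by simp [h]⟩
      · obtain ⟨x0, hx0, hmin⟩ := F.exists_min_image (fun x => εf x.2.2) h
        exact ⟨εf x0.2.2, hεf _, hmin⟩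
    obtain ⟨n, hn, Z', hZ'1, hZ'2, hZ'3⟩ := d.el (F.biUnion (fun x => sf x.2.2)) ε hε N
    have hA : ∀ x ∈ F, ‖Φ Z' (d.ζ n) x.2.2 (D' (d.a n) (zT {x.2.2})) - 1‖ ≤ 1 / 4 := by
      intro x hx
      have h1 := hmain x.2.2 n Z' (by have := (hN x hx).2; omega) hZ'1 (fun p hp => by
        have := hZ'3 p (Finset.mem_biUnion.mpr ⟨x, hx, hp⟩)
        exact ⟨this.1.trans (hεF x hx), this.2.trans (hεF x hx)⟩)
      have h2 := (hF x hx).2.2
      linarith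
    -- the next element of the index set
    have hev : ∀ᶠ l in atTop, (∀ x ∈ F, ‖Φ x.2.1 (d.ζ x.1) l (D' (d.a x.1) (zT {l}))‖ ≤ 1 / 4) ∧
        ‖Φ Z' (d.ζ n) l (D' (d.a n) (zT {l}))‖ ≤ 1 / 4 ∧
        ‖⟪d.ξ, c l (S (zT {l}))⟫_ℂ‖ ≤ 1 / 8 := by
      have key : ∀ (g : Finset (A × d.H) → ℂ) (δ : ℝ), 0 < δ → Tendsto g atTop (nhds 0) →
          ∀ᶠ l in atTop, ‖g l‖ ≤ δ := by
        intro g δ hδ hg
        have := (Metric.tendsto_nhds.mp hg) δ hδ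
        filter_upwards [this] with l hl
        rw [dist_zero_right] at hl
        exact hl.le
      refine Filter.Eventually.and ?_ (Filter.Eventually.and ?_ ?_)
      · rw [Filter.eventually_all_finset]
        intro x _
        exact key _ _ (by norm_num) (hp _ _)
      · exact key _ _ (by norm_num) (hp _ _)
      · exact key _ _ (by norm_num) hs
    obtain ⟨y0, hy0⟩ := Infinite.exists_notMem_finset (F.biUnion (fun x => x.2.2))
    obtain ⟨l, hl, hl1, hl2, hl3⟩ := ((eventually_ge_atTop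
      (insert y0 (F.biUnion (fun x => x.2.2)))).and hev).exists
    refine ⟨(n, Z', l), ⟨hZ'1, hl2, hl3⟩, fun x hx => ⟨?_, ?_, hA x hx, hl1 x hx⟩⟩
    · have := (hN x hx).1
      show x.1 < n
      omega
    · have h1 : x.2.2 ⊆ F.biUnion (fun x => x.2.2) :=
        Finset.subset_biUnion_of_mem (fun x => x.2.2) hx
      have h2 : x.2.2 ⊆ l := h1.trans ((Finset.subset_insert _ _).trans hl)
      refine lt_of_le_of_ne h2 (fun h3 => hy0 ?_)
      have h3' : x.2.2 = l := h3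
      have : y0 ∈ l := hl (Finset.mem_insert_self _ _)
      exact h1 (h3' ▸ this)
  have hn_inj : Function.Injective (fun i => (f i).1) :=
    (strictMono_nat_of_lt_succ (fun i => (hfr i (i + 1) (Nat.lt_succ_self i)).1)).injective
  have hl_inj : Function.Injective (fun i => (f i).2.2) :=
    (strictMono_nat_of_lt_succ (f := fun i => (f i).2.2)
      (fun i => (hfr i (i + 1) (Nat.lt_succ_self i)).2.1)).injective
  refine J13.final_contradiction A M Q d.H J12.norm_sum_diag_le ?_ D' (fun i => d.a (f i).1)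
    (fun k => zT {(f k).2.2}) ?_ ?_ (fun i k => Φ (f i).2.1 (d.ζ (f i).1) (f k).2.2) ?_ ?_ ?_
  · intro r
    obtain ⟨h, h1, h2⟩ := J1.exists_dyadic.{u} r
    exact ⟨h, h1, fun w v U V hw hv => h2 d.H w v U V hw hv⟩
  · exact norm_comp_le d.a d.a_norm _ hn_inj
  · exact norm_comp_le (fun l => zT {l}) hzs _ hl_inj
  · intro N g C hC hg y
    exact hΦ5 N g C hC hg (fun i => (f i).2.1) (fun i => d.ζ (f i).1) (fun k => (f k).2.2)
      (fun i => (hfP i).1) (fun i => (d.ζ_norm _).le) y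
  · intro i k hki
    exact (hfr k i hki).2.2.1
  · intro i k hik
    rcases hik.lt_or_eq with h | h
    · exact (hfr i k h).2.2.2
    · subst h
      exact (hfP i).2.1

end Pool.Agent.Helper832.CD
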