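import Mathlib

set_option autoImplicit false

namespace Pool.Agent.Helper832.CD.J6a

set_option linter.unusedSectionVars false
open Filter Topology
open scoped ComplexOrder CStarAlgebra InnerProductSpace
universe u



namespace CDst

section States

variable {B : Type u} [CStarAlgebra B] [PartialOrder B] [StarOrderedRing B] [Nontrivial B]

/-- a functional of norm at most one with value one at `1` is real on self-adjoint elements -/
theorem state_im (l : B →L[ℂ] ℂ) (hl : ‖l‖ ≤ 1) (hl1 : l 1 = 1) (a : B) (ha : IsSelfAdjoint a) : (l a).im = 0 := by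
  have key : ∀ R : ℝ, (l a).re ^ 2 + ((l a).im - R) ^ 2 ≤ ‖a‖ ^ 2 + R ^ 2 := by
    intro R
    have e1 : l (a - ((R : ℂ) * Complex.I) • 1) = l a - (R : ℂ) * Complex.I := by
      rw [map_sub, map_smul, hl1, smul_eq_mul, mul_one]
    have e2 : ‖l (a - ((R : ℂ) * Complex.I) • 1)‖ ≤ ‖a - ((R : ℂ) * Complex.I) • 1‖ := by
      simpa using l.le_of_opNorm_le hl (a - ((R : ℂ) * Complex.I) • 1)
    have e3 : ‖a - ((R : ℂ) * Complex.I) • (1 : B)‖ ^ 2 ≤ ‖a‖ ^ 2 + R ^ 2 := by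
      have h1 : star (a - ((R : ℂ) * Complex.I) • (1 : B)) * (a - ((R : ℂ) * Complex.I) • (1 : B)) = a * a + ((R : ℂ) ^ 2) • 1 := by
        rw [star_sub, star_smul, ha.star_eq, star_one]
        have h2 : star ((R : ℂ) * Complex.I) = -((R : ℂ) * Complex.I) := by
          simp
        rw [h2, neg_smul, sub_neg_eq_add, add_mul, mul_sub, mul_sub, smul_mul_smul_comm, smul_mul_assoc, one_mul,
          mul_smul_comm, mul_one, mul_one]
        have h3 : (R : ℂ) * Complex.I * ((R : ℂ) * Complex.I) = -((R : ℂ) ^ 2) := by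
          rw [mul_mul_mul_comm, Complex.I_mul_I]; ring
        rw [h3, neg_smul]
        abel
      rw [pow_two, ← CStarRing.norm_star_mul_self, h1]
      calc ‖a * a + ((R : ℂ) ^ 2) • (1 : B)‖ ≤ ‖a * a‖ + ‖((R : ℂ) ^ 2) • (1 : B)‖ := norm_add_le _ _
        _ ≤ ‖a‖ * ‖a‖ + R ^ 2 := by
            refine add_le_add (norm_mul_le _ _) ?_
            rw [norm_smul, norm_one, mul_one, norm_pow, Complex.norm_real, Real.norm_eq_abs, sq_abs]
        _ = ‖a‖ ^ 2 + R ^ 2 := by ring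
    have e4 : ‖l a - (R : ℂ) * Complex.I‖ ^ 2 = (l a).re ^ 2 + ((l a).im - R) ^ 2 := by
      rw [← Complex.normSq_eq_norm_sq, Complex.normSq_apply]
      simp
      ring
    rw [← e4, ← e1]
    calc ‖l (a - ((R : ℂ) * Complex.I) • 1)‖ ^ 2 ≤ ‖a - ((R : ℂ) * Complex.I) • (1 : B)‖ ^ 2 := by gcongr
      _ ≤ _ := e3
  by_contra hne
  set y := (l a).im with hy
  have h1 := key (-(‖a‖ ^ 2 + 1) / (2 * y))
  have h2 : (y - -(‖a‖ ^ 2 + 1) / (2 * y)) ^ 2 = y ^ 2 + (‖a‖ ^ 2 + 1) + (-(‖a‖ ^ 2 + 1) / (2 * y)) ^ 2 := by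
    field_simp
    ring
  rw [h2] at h1
  nlinarith [sq_nonneg (l a).re, sq_nonneg y]

theorem state_re (l : B →L[ℂ] ℂ) (hl : ‖l‖ ≤ 1) (hl1 : l 1 = 1) (a : B) (ha : 0 ≤ a) : 0 ≤ (l a).re := by
  have h0 : IsSelfAdjoint a := IsSelfAdjoint.of_nonneg ha
  have h1 : a ≤ algebraMap ℝ B ‖a‖ := h0.le_algebraMap_norm_self
  have h2 : 0 ≤ algebraMap ℝ B ‖a‖ - a := sub_nonneg.mpr h1
  have h3 : algebraMap ℝ B ‖a‖ - a ≤ algebraMap ℝ B ‖a‖ := sub_le_self _ ha
  have h4 : ‖algebraMap ℝ B ‖a‖ - a‖ ≤ ‖a‖ := by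
    rw [CStarAlgebra.norm_le_iff_le_algebraMap _ (norm_nonneg _) h2]
    exact h3
  have h5 : ‖l (algebraMap ℝ B ‖a‖ - a)‖ ≤ ‖a‖ := by
    have := l.le_of_opNorm_le hl (algebraMap ℝ B ‖a‖ - a)
    rw [one_mul] at this
    exact this.trans h4
  have h6 : l (algebraMap ℝ B ‖a‖ - a) = (‖a‖ : ℂ) - l a := by
    rw [map_sub]
    congr 1
    rw [Algebra.algebraMap_eq_smul_one, ← Complex.coe_smul, map_smul, hl1, smul_eq_mul, mul_one]
  rw [h6] at h5
  have h7 := (Complex.re_le_norm ((‖a‖ : ℂ) - l a)).trans h5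
  simp at h7
  linarith

theorem exists_state (c : B) (hc : 0 ≤ c) : ∃ f : B →ₚ[ℂ] ℂ, f c = (‖c‖ : ℂ) := by
  obtain ⟨l, hl, hl1⟩ := exists_dual_vector'' ℂ (1 + c)
  have hn : 1 + ‖c‖ ≤ ‖1 + c‖ := by
    have h1 : ‖c‖ ∈ spectrum ℝ c := CStarAlgebra.norm_mem_spectrum_of_nonneg hc
    have h2 : 1 + ‖c‖ ∈ spectrum ℝ (1 + c) := by
      have := (spectrum.add_mem_add_iff (R := ℝ) (a := c) (r := ‖c‖) (s := 1)).mpr h1
      rw [map_one] at this
      rw [add_comm 1 ‖c‖]
      exact this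
    have h3 := spectrum.norm_le_norm_of_mem h2
    rw [Real.norm_eq_abs] at h3
    exact (le_abs_self _).trans h3
  have hlx : ∀ x, ‖l x‖ ≤ ‖x‖ := fun x => by simpa using l.le_of_opNorm_le hl x
  have a1 : ‖l 1‖ ≤ 1 := by simpa using hlx 1
  have a2 : ‖l c‖ ≤ ‖c‖ := hlx c
  have a3 : l 1 + l c = (‖1 + c‖ : ℂ) := by rw [← map_add, hl1]; rfl
  have a4 : (l 1).re + (l c).re = ‖1 + c‖ := by
    have := congrArg Complex.re a3
    simpa using this
  have a5 := Complex.re_le_norm (l 1)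
  have a6 := Complex.re_le_norm (l c)
  have b1 : (l 1).re = 1 := by linarith
  have b2 : (l c).re = ‖c‖ := by linarith
  have c1 : l 1 = 1 := by
    have h1 : ‖l 1‖ = 1 := by linarith
    have h2 : ‖l 1‖ ^ 2 = (l 1).re ^ 2 + (l 1).im ^ 2 := by
      rw [← Complex.normSq_eq_norm_sq, Complex.normSq_apply]; ring
    rw [h1, b1] at h2
    have h3 : (l 1).im = 0 := by
      have : (l 1).im ^ 2 = 0 := by linarith
      exact pow_eq_zero_iff (two_ne_zero) |>.mp this
    apply Complex.ext <;> simp [b1, h3]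
  refine ⟨PositiveLinearMap.mk₀ l.toLinearMap (fun x hx => ?_), ?_⟩
  · rw [Complex.le_def]
    refine ⟨?_, ?_⟩
    · exact state_re l hl c1 x hx
    · exact (state_im l hl c1 x (IsSelfAdjoint.of_nonneg hx)).symm
  · show l c = _
    apply Complex.ext
    · simpa using b2
    · simpa using state_im l hl c1 c (IsSelfAdjoint.of_nonneg hc)

end States

section Rep

variable {B : Type u} [CStarAlgebra B] [PartialOrder B] [StarOrderedRing B] [Nontrivial B]

theorem exists_functional (b : ℕ → B) (hb : ∀ n, b n ≠ 0) :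
    ∃ F : B →ₚ[ℂ] ℂ, ∀ n, F (star (b n) * b n) ≠ 0 := by
  have h1 : ∀ n, ∃ f : B →ₚ[ℂ] ℂ, f (star (b n) * b n) = (‖star (b n) * b n‖ : ℂ) :=
    fun n => exists_state _ (star_mul_self_nonneg _)
  choose f hf using h1
  have h2 : ∀ n, ∃ C : NNReal, ∀ a, ‖f n a‖ ≤ C * ‖a‖ :=
    fun n => PositiveLinearMap.exists_norm_apply_le (f n)
  choose C hC using h2
  let c : ℕ → ℝ := fun n => (1 / 2) ^ n / (C n + 1)
  have hcpos : ∀ n, 0 < c n := fun n => by positivity
  have hbound : ∀ x n, ‖(c n : ℂ) * f n x‖ ≤ (1 / 2) ^ n * ‖x‖ := by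
    intro x n
    rw [norm_mul, Complex.norm_real, Real.norm_of_nonneg (hcpos n).le]
    have hC1 : (C n : ℝ) ≤ C n + 1 := by linarith
    have hpos : (0 : ℝ) < C n + 1 := by positivity
    calc c n * ‖f n x‖ ≤ c n * ((C n + 1) * ‖x‖) := by
          apply mul_le_mul_of_nonneg_left _ (hcpos n).le
          exact (hC n x).trans (mul_le_mul_of_nonneg_right hC1 (norm_nonneg _))
      _ = (1 / 2) ^ n * ‖x‖ := by
          simp only [c]
          field_simp
  have hsum : ∀ x, Summable (fun n => (c n : ℂ) * f n x) := by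
    intro x
    refine Summable.of_norm_bounded (g := fun n => (1 / 2 : ℝ) ^ n * ‖x‖) ?_ (hbound x)
    exact (summable_geometric_of_lt_one (by norm_num) (by norm_num)).mul_right _
  have hterm : ∀ n x, 0 ≤ x → 0 ≤ (c n : ℂ) * f n x := by
    intro n x hx
    refine mul_nonneg ?_ ((f n).map_nonneg hx)
    exact_mod_cast (hcpos n).le
  let L : B →ₗ[ℂ] ℂ :=
    { toFun := fun x => ∑' n, (c n : ℂ) * f n x
      map_add' := fun x y => by
        rw [← (hsum x).tsum_add (hsum y)]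
        exact tsum_congr (fun n => by rw [map_add, mul_add])
      map_smul' := fun a x => by
        simp only [RingHom.id_apply, smul_eq_mul]
        rw [← tsum_mul_left]
        exact tsum_congr (fun n => by rw [map_smul, smul_eq_mul]; ring) }
  refine ⟨PositiveLinearMap.mk₀ L (fun x hx => tsum_nonneg (fun n => hterm n x hx)), fun n h => ?_⟩
  have h3 : ∑' m, (c m : ℂ) * f m (star (b n) * b n) = 0 := h
  have hx : 0 ≤ star (b n) * b n := star_mul_self_nonneg _
  have h4 := (hsum (star (b n) * b n)).le_tsum n (fun m _ => hterm m _ hx)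
  rw [h3] at h4
  have h5 := le_antisymm h4 (hterm n _ hx)
  rw [hf n] at h5
  have h6 : (c n : ℂ) ≠ 0 := by exact_mod_cast (hcpos n).ne'
  have h7 : (‖star (b n) * b n‖ : ℂ) ≠ 0 := by
    rw [CStarRing.norm_star_mul_self]
    have : ‖b n‖ ≠ 0 := norm_ne_zero_iff.2 (hb n)
    exact_mod_cast mul_ne_zero this this
  exact (mul_ne_zero h6 h7) h5

theorem exists_rep_aux (b : ℕ → B) (hb : ∀ n, b n ≠ 0) :
    ∃ (K : Type u) (_ : NormedAddCommGroup K) (_ : InnerProductSpace ℂ K) (_ : CompleteSpace K)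
      (π : B →⋆ₐ[ℂ] (K →L[ℂ] K)) (η : ℕ → K), ∀ n, π (b n) (η n) ≠ 0 := by
  obtain ⟨F, hF⟩ := exists_functional b hb
  refine ⟨F.GNS, inferInstance, inferInstance, inferInstance, F.gnsStarAlgHom,
    fun _ => ((F.toPreGNS 1 : F.PreGNS) : F.GNS), fun n h => ?_⟩
  have h1 : F.gnsStarAlgHom (b n) ((F.toPreGNS 1 : F.PreGNS) : F.GNS)
      = ((F.toPreGNS (b n) : F.PreGNS) : F.GNS) := by
    have h2 := PositiveLinearMap.gnsNonUnitalStarAlgHom_apply_coe (f := F) (a := b n)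
      (b := F.toPreGNS 1)
    have h3 : F.leftMulMapPreGNS (b n) (F.toPreGNS 1) = F.toPreGNS (b n) := by
      simp
    rw [h3] at h2
    exact h2
  rw [h1] at h
  have h4 : ‖((F.toPreGNS (b n) : F.PreGNS) : F.GNS)‖ = 0 := by rw [h, norm_zero]
  rw [UniformSpace.Completion.norm_coe] at h4
  have h5 := F.preGNS_norm_sq (F.toPreGNS (b n))
  rw [h4] at h5
  apply hF n
  simpa using h5.symm

end Rep

/-- a representation in which no `b n` vanishes -/
theorem exists_rep (B : Type u) [CStarAlgebra B] (b : ℕ → B) (hb : ∀ n, b n ≠ 0) :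
    ∃ (K : Type u) (_ : NormedAddCommGroup K) (_ : InnerProductSpace ℂ K) (_ : CompleteSpace K)
      (π : B →⋆ₐ[ℂ] (K →L[ℂ] K)) (η : ℕ → K), ∀ n, π (b n) (η n) ≠ 0 := by
  letI : PartialOrder B := CStarAlgebra.spectralOrder B
  haveI : StarOrderedRing B := CStarAlgebra.spectralOrderedRing B
  haveI : Nontrivial B := ⟨b 0, 0, hb 0⟩
  exact exists_rep_aux b hb

end CDst

end Pool.Agent.Helper832.CD.J6a
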