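import Mathlib

set_option autoImplicit false

namespace Pool.Agent.Helper832.CD.J6b

open scoped InnerProductSpace
universe u

/-- the limit of vector states along an ultrafilter and its cyclic representation -/
theorem exists_limit_rep (B : Type u) [CStarAlgebra B] (K : Type u) [NormedAddCommGroup K]
    [InnerProductSpace ℂ K] [CompleteSpace K] (π : B →⋆ₐ[ℂ] (K →L[ℂ] K)) (ζ : ℕ → K)
    (hζ : ∀ n, ‖ζ n‖ = 1) :
    ∃ (U : Ultrafilter ℕ) (H : Type u) (_ : NormedAddCommGroup H) (_ : InnerProductSpace ℂ H)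
      (_ : CompleteSpace H) (ρ : B →⋆ₐ[ℂ] (H →L[ℂ] H)) (ξ : H),
      (∀ N : ℕ, ∀ᶠ n in (U : Filter ℕ), N ≤ n) ∧
      (∀ b : B, Filter.Tendsto (fun n => ⟪ζ n, π b (ζ n)⟫_ℂ) (U : Filter ℕ)
        (nhds ⟪ξ, ρ b ξ⟫_ℂ)) ∧
      ∀ (h : H) (ε : ℝ), 0 < ε → ∃ c : B, ‖h - ρ c ξ‖ < ε := by
  classical
  let U : Ultrafilter ℕ := Filter.hyperfilter ℕ
  have hU : ∀ N : ℕ, ∀ᶠ n in (U : Filter ℕ), N ≤ n := by
    intro N
    have h1 : (U : Filter ℕ) ≤ Filter.cofinite := Filter.hyperfilter_le_cofinite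
    rw [Nat.cofinite_eq_atTop] at h1
    exact h1 (Filter.eventually_ge_atTop N)
  have hlim : ∀ b : B, ∃ z : ℂ, Filter.Tendsto (fun n => ⟪ζ n, π b (ζ n)⟫_ℂ) (U : Filter ℕ) (nhds z) := by
    intro b
    have hc : IsCompact (Metric.closedBall (0:ℂ) ‖π b‖) := isCompact_closedBall _ _
    have hm : (Ultrafilter.map (fun n => ⟪ζ n, π b (ζ n)⟫_ℂ) U : Filter ℂ) ≤ Filter.principal (Metric.closedBall (0:ℂ) ‖π b‖) := by
      rw [Filter.le_principal_iff]
      change {n | ⟪ζ n, π b (ζ n)⟫_ℂ ∈ Metric.closedBall (0:ℂ) ‖π b‖} ∈ (U : Filter ℕ)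
      refine Filter.univ_mem' fun n => ?_
      simp only [Set.mem_ofPred_eq, mem_closedBall_zero_iff]
      calc ‖⟪ζ n, π b (ζ n)⟫_ℂ‖ ≤ ‖ζ n‖ * ‖π b (ζ n)‖ := norm_inner_le_norm _ _
        _ ≤ 1 * (‖π b‖ * 1) := by
            rw [hζ n]
            have := (π b).le_opNorm (ζ n)
            rw [hζ n] at this
            simpa using this
        _ = ‖π b‖ := by ring
    obtain ⟨z, -, hz⟩ := hc.ultrafilter_le_nhds _ hm
    exact ⟨z, hz⟩
  choose φ hφ using hlim
  have hne : (U : Filter ℕ).NeBot := inferInstance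
  let L : B →ₗ[ℂ] ℂ :=
    { toFun := φ
      map_add' := by
        intro a b
        refine tendsto_nhds_unique (hφ (a + b)) ?_
        have := (hφ a).add (hφ b)
        refine this.congr fun n => ?_
        simp
      map_smul' := by
        intro c a
        refine tendsto_nhds_unique (hφ (c • a)) ?_
        have := (hφ a).const_smul c
        refine this.congr fun n => ?_
        simp }
  open scoped ComplexOrder in
  letI := CStarAlgebra.spectralOrder B
  haveI := CStarAlgebra.spectralOrderedRing B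
  have hpos : ∀ x : B, 0 ≤ x → 0 ≤ L x := by
    intro x hx
    obtain ⟨c, rfl⟩ := CStarAlgebra.nonneg_iff_eq_star_mul_self.mp hx
    have h1 : ∀ n, ⟪ζ n, π (star c * c) (ζ n)⟫_ℂ = ((‖π c (ζ n)‖ ^ 2 : ℝ) : ℂ) := by
      intro n
      rw [map_mul, map_star, ContinuousLinearMap.mul_apply, ContinuousLinearMap.star_eq_adjoint,
        ContinuousLinearMap.adjoint_inner_right, inner_self_eq_norm_sq_to_K]
      simp
    have h2 : Filter.Tendsto (fun n => ((‖π c (ζ n)‖ ^ 2 : ℝ) : ℂ)) (U : Filter ℕ) (nhds (L (star c * c))) := by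
      refine (hφ (star c * c)).congr fun n => h1 n
    rw [Complex.nonneg_iff]
    have hre : Filter.Tendsto (fun n => (‖π c (ζ n)‖ ^ 2 : ℝ)) (U : Filter ℕ) (nhds (L (star c * c)).re) := by
      have := (Complex.continuous_re.tendsto _).comp h2
      refine this.congr fun n => ?_
      simp only [Function.comp, Complex.ofReal_re]
    have him : Filter.Tendsto (fun _ : ℕ => (0:ℝ)) (U : Filter ℕ) (nhds (L (star c * c)).im) := by
      have := (Complex.continuous_im.tendsto _).comp h2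
      refine this.congr fun n => ?_
      simp only [Function.comp, Complex.ofReal_im]
    refine ⟨?_, ?_⟩
    · exact ge_of_tendsto' hre fun n => by positivity
    · exact tendsto_nhds_unique tendsto_const_nhds him
  let f : B →ₚ[ℂ] ℂ := PositiveLinearMap.mk₀ L hpos
  have hf : ∀ b, f b = φ b := fun b => rfl
  refine ⟨U, f.GNS, inferInstance, inferInstance, inferInstance, f.gnsStarAlgHom,
    ((f.toPreGNS 1 : f.PreGNS) : f.GNS), hU, ?_, ?_⟩
  · intro b
    have : ⟪((f.toPreGNS 1 : f.PreGNS) : f.GNS), f.gnsStarAlgHom b ((f.toPreGNS 1 : f.PreGNS) : f.GNS)⟫_ℂ = φ b := by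
      have h1 : f.gnsStarAlgHom b ((f.toPreGNS 1 : f.PreGNS) : f.GNS) = ((f.leftMulMapPreGNS b (f.toPreGNS 1) : f.PreGNS) : f.GNS) :=
        f.gnsNonUnitalStarAlgHom_apply_coe
      rw [h1, UniformSpace.Completion.inner_coe, PositiveLinearMap.preGNS_inner_def]
      simp [hf]
    rw [this]
    exact hφ b
  · intro h ε hε
    have hd := UniformSpace.Completion.denseRange_coe (α := f.PreGNS)
    obtain ⟨y, hy⟩ := Metric.denseRange_iff.mp hd h ε hε
    refine ⟨f.ofPreGNS y, ?_⟩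
    have h1 : f.gnsStarAlgHom (f.ofPreGNS y) ((f.toPreGNS 1 : f.PreGNS) : f.GNS) = ((f.leftMulMapPreGNS (f.ofPreGNS y) (f.toPreGNS 1) : f.PreGNS) : f.GNS) :=
        f.gnsNonUnitalStarAlgHom_apply_coe
    have h2 : f.leftMulMapPreGNS (f.ofPreGNS y) (f.toPreGNS 1) = y := by
      simp
    rw [h1, h2, ← dist_eq_norm]
    exact hy

end Pool.Agent.Helper832.CD.J6b
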