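import Mathlib

set_option autoImplicit false

namespace Pool.Agent.Helper832.CD.J7

open scoped InnerProductSpace
universe u

theorem gram_bound {K : Type*} [NormedAddCommGroup K] [InnerProductSpace ℂ K] {r : ℕ}
    (v : Fin r → K) (a : Fin r → ℂ) (t : ℝ) (ht : 0 ≤ t) (hrt : t * r ≤ 1)
    (hv : ∀ i j, ‖⟪v i, v j⟫_ℂ - (if i = j then 1 else 0)‖ ≤ t) :
    ‖∑ i, a i • v i‖ ^ 2 ≤ 2 * ∑ i, ‖a i‖ ^ 2 := by
  have h1 : ((‖∑ i, a i • v i‖ ^ 2 : ℝ) : ℂ) =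
      ∑ i, ∑ j, (starRingEnd ℂ) (a i) * (a j * ⟪v i, v j⟫_ℂ) := by
    have h0 : ⟪∑ i, a i • v i, ∑ i, a i • v i⟫_ℂ = ((‖∑ i, a i • v i‖ ^ 2 : ℝ) : ℂ) := by
      rw [inner_self_eq_norm_sq_to_K]
      simp
    rw [← h0, sum_inner]
    refine Finset.sum_congr rfl fun i _ => ?_
    rw [inner_sum]
    refine Finset.sum_congr rfl fun j _ => ?_
    rw [inner_smul_left, inner_smul_right]
  have h2 : ∑ i, ∑ j, (starRingEnd ℂ) (a i) * (a j * ⟪v i, v j⟫_ℂ) =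
      ∑ i, ((‖a i‖ ^ 2 : ℝ) : ℂ) + ∑ i, ∑ j, (starRingEnd ℂ) (a i) *
        (a j * (⟪v i, v j⟫_ℂ - (if i = j then 1 else 0))) := by
    rw [← Finset.sum_add_distrib]
    refine Finset.sum_congr rfl fun i _ => ?_
    have h3 : ∑ j, (starRingEnd ℂ) (a i) * (a j * (⟪v i, v j⟫_ℂ - (if i = j then 1 else 0))) =
        ∑ j, (starRingEnd ℂ) (a i) * (a j * ⟪v i, v j⟫_ℂ) -
        ∑ j, (starRingEnd ℂ) (a i) * (a j * (if i = j then 1 else 0)) := by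
      rw [← Finset.sum_sub_distrib]
      refine Finset.sum_congr rfl fun j _ => ?_
      ring
    have h4 : ∑ j, (starRingEnd ℂ) (a i) * (a j * (if i = j then 1 else 0)) =
        ((‖a i‖ ^ 2 : ℝ) : ℂ) := by
      rw [Finset.sum_eq_single i]
      · rw [if_pos rfl, mul_one, mul_comm, Complex.mul_conj, Complex.normSq_eq_norm_sq]
      · intro j _ hj
        rw [if_neg (Ne.symm hj)]
        simp
      · intro h
        exact absurd (Finset.mem_univ i) h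
    rw [h3, h4]
    ring
  have h5 : ‖∑ i, ∑ j, (starRingEnd ℂ) (a i) *
        (a j * (⟪v i, v j⟫_ℂ - (if i = j then 1 else 0)))‖ ≤ ∑ i, ‖a i‖ ^ 2 := by
    calc ‖∑ i, ∑ j, (starRingEnd ℂ) (a i) *
        (a j * (⟪v i, v j⟫_ℂ - (if i = j then 1 else 0)))‖
        ≤ ∑ i, ∑ j, ‖a i‖ * (‖a j‖ * t) := by
          refine (norm_sum_le _ _).trans (Finset.sum_le_sum fun i _ => ?_)
          refine (norm_sum_le _ _).trans (Finset.sum_le_sum fun j _ => ?_)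
          rw [norm_mul, norm_mul, RCLike.norm_conj]
          gcongr
          exact hv i j
      _ = t * (∑ i, ‖a i‖) ^ 2 := by
          rw [sq, Finset.sum_mul_sum, Finset.mul_sum]
          refine Finset.sum_congr rfl fun i _ => ?_
          rw [Finset.mul_sum]
          refine Finset.sum_congr rfl fun j _ => ?_
          ring
      _ ≤ t * (r * ∑ i, ‖a i‖ ^ 2) := by
          refine mul_le_mul_of_nonneg_left ?_ ht
          have := sq_sum_le_card_mul_sum_sq (s := (Finset.univ : Finset (Fin r)))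
            (f := fun i => ‖a i‖)
          simpa using this
      _ = (t * r) * ∑ i, ‖a i‖ ^ 2 := by ring
      _ ≤ 1 * ∑ i, ‖a i‖ ^ 2 := by
          refine mul_le_mul_of_nonneg_right hrt ?_
          exact Finset.sum_nonneg fun i _ => by positivity
      _ = _ := one_mul _
  have h6 : ‖((‖∑ i, a i • v i‖ ^ 2 : ℝ) : ℂ)‖ = ‖∑ i, a i • v i‖ ^ 2 := by
    rw [Complex.norm_real, Real.norm_eq_abs, abs_of_nonneg (by positivity)]
  rw [← h6, h1, h2]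
  refine (norm_add_le _ _).trans ?_
  have h7 : ‖∑ i, ((‖a i‖ ^ 2 : ℝ) : ℂ)‖ = ∑ i, ‖a i‖ ^ 2 := by
    rw [← Complex.ofReal_sum, Complex.norm_real, Real.norm_eq_abs,
      abs_of_nonneg (Finset.sum_nonneg fun i _ => by positivity)]
  rw [h7]
  linarith

section AI

variable {B : Type*} [CStarAlgebra B]
    {H K : Type*} [NormedAddCommGroup H] [InnerProductSpace ℂ H] [CompleteSpace H]
    [NormedAddCommGroup K] [InnerProductSpace ℂ K] [CompleteSpace K]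

theorem ai_inner (π : B →⋆ₐ[ℂ] (K →L[ℂ] K)) (c d : B) (x : K) :
    ⟪π c x, π d x⟫_ℂ = ⟪x, π (star c * d) x⟫_ℂ := by
  rw [map_mul, map_star, ContinuousLinearMap.star_eq_adjoint]
  change _ = ⟪x, (ContinuousLinearMap.adjoint (π c)) (π d x)⟫_ℂ
  rw [ContinuousLinearMap.adjoint_inner_right]

theorem ai_norm_le (π : B →⋆ₐ[ℂ] (K →L[ℂ] K)) (c : B) (x : K) : ‖π c x‖ ≤ ‖c‖ * ‖x‖ := by
  refine ((π c).le_opNorm x).trans ?_
  gcongr
  exact NonUnitalStarAlgHom.norm_apply_le π c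

theorem ai_core (ρ : B →⋆ₐ[ℂ] (H →L[ℂ] H)) (π : B →⋆ₐ[ℂ] (K →L[ℂ] K)) (ζ : ℕ → K)
    (ξ : H) (hξ : ‖ξ‖ = 1) (U : Filter ℕ)
    (hlim : ∀ b : B, Filter.Tendsto (fun n => ⟪ζ n, π b (ζ n)⟫_ℂ) U (nhds ⟪ξ, ρ b ξ⟫_ℂ))
    (C : Finset B) (η : ℝ) (hη : 0 < η) :
    ∀ᶠ n in U, ∃ Z : H →L[ℂ] K, ‖Z‖ ≤ 2 ∧ Z ξ = ζ n ∧ ∀ c ∈ C,
      ‖Z (ρ c ξ) - π c (ζ n)‖ ≤ η := by
  classical
  have hlim2 : ∀ c d : B, Filter.Tendsto (fun n => ⟪π c (ζ n), π d (ζ n)⟫_ℂ) U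
      (nhds ⟪ρ c ξ, ρ d ξ⟫_ℂ) := by
    intro c d
    simp only [ai_inner]
    exact hlim _
  have hnull : ∀ e : B, ρ e ξ = 0 → ∀ κ : ℝ, 0 < κ → ∀ᶠ n in U, ‖π e (ζ n)‖ ≤ κ := by
    intro e he κ hκ
    have h1 := hlim2 e e
    rw [he, inner_zero_left] at h1
    have h2 := h1.norm
    rw [norm_zero] at h2
    have h3 := h2.eventually (gt_mem_nhds (by positivity : (0 : ℝ) < κ ^ 2))
    filter_upwards [h3] with n hn
    rw [inner_self_eq_norm_sq_to_K] at hn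
    have h4 : ‖π e (ζ n)‖ ^ 2 < κ ^ 2 := by
      simpa using hn
    exact (abs_le_of_sq_le_sq' h4.le hκ.le).2
  -- the finite dimensional space
  let q : B →ₗ[ℂ] H :=
    { toFun := fun c => ρ c ξ
      map_add' := fun a b => by simp
      map_smul' := fun a b => by simp }
  have hq : ∀ c, q c = ρ c ξ := fun c => rfl
  let S : Submodule ℂ B := Submodule.span ℂ ((insert 1 C : Finset B) : Set B)
  have hSfin : Module.Finite ℂ S := Module.Finite.span_finset ℂ (insert 1 C)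
  let F : Submodule ℂ H := S.map q
  have hFfin : Module.Finite ℂ F := Module.Finite.map S q
  have hCF : ∀ c ∈ insert 1 C, ρ c ξ ∈ F := fun c hc =>
    Submodule.mem_map_of_mem (Submodule.subset_span (Finset.mem_coe.2 hc))
  have hξF : ξ ∈ F := by
    have := hCF 1 (Finset.mem_insert_self _ _)
    simpa using this
  let u := stdOrthonormalBasis ℂ F
  set r := Module.finrank ℂ F with hr
  have hex : ∀ i, ∃ d : B, ρ d ξ = (u i : H) := by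
    intro i
    obtain ⟨d, -, hd⟩ := (Submodule.mem_map).1 (u i).2
    exact ⟨d, hd⟩
  choose d hd using hex
  have huo : Orthonormal ℂ (fun i => (u i : H)) := u.orthonormal.comp_linearIsometry F.subtypeₗᵢ
  have hsum : ∀ f ∈ F, ∑ i, ⟪(u i : H), f⟫_ℂ • (u i : H) = f := by
    intro f hf
    have h1 := u.sum_repr' ⟨f, hf⟩
    have h2 := congrArg (Submodule.subtype F) h1
    rw [map_sum] at h2
    simpa using h2
  set e0 : B := 1 - ∑ i, ⟪(u i : H), ξ⟫_ℂ • d i with he0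
  have hρsum : ∀ f ∈ F, ρ (∑ i, ⟪(u i : H), f⟫_ℂ • d i) ξ = f := by
    intro f hf
    have h1 : ρ (∑ i, ⟪(u i : H), f⟫_ℂ • d i) ξ = q (∑ i, ⟪(u i : H), f⟫_ℂ • d i) := rfl
    rw [h1, map_sum]
    refine Eq.trans (Finset.sum_congr rfl fun i _ => ?_) (hsum f hf)
    rw [q.map_smul, hq, hd]
  have he0' : ρ e0 ξ = 0 := by
    have h1 : ρ e0 ξ = q 1 - q (∑ i, ⟪(u i : H), ξ⟫_ℂ • d i) := by
      rw [← map_sub]; rfl
    rw [h1, hq, hq, hρsum ξ hξF]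
    simp
  -- eventual properties
  set t : ℝ := 1 / (r + 1) with ht
  have ht0 : 0 < t := by positivity
  have htr : t * r ≤ 1 := by
    rw [ht, one_div_mul_eq_div, div_le_one (by positivity)]
    linarith
  have hE1 : ∀ᶠ n in U, ∀ i j, ‖⟪π (d i) (ζ n), π (d j) (ζ n)⟫_ℂ - (if i = j then 1 else 0)‖ ≤ t := by
    rw [Filter.eventually_all]
    intro i
    rw [Filter.eventually_all]
    intro j
    have h1 := hlim2 (d i) (d j)
    rw [hd, hd] at h1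
    have h2 : ⟪(u i : H), (u j : H)⟫_ℂ = if i = j then 1 else 0 := (orthonormal_iff_ite.1 huo) i j
    rw [h2] at h1
    have h3 := (tendsto_iff_norm_sub_tendsto_zero.1 h1).eventually (gt_mem_nhds ht0)
    filter_upwards [h3] with n hn
    exact hn.le
  have hE2 := hnull e0 he0' (1 / 2) (by norm_num)
  set σ : H → B := fun f => ∑ i, ⟪(u i : H), f⟫_ℂ • d i + ⟪ξ, f⟫_ℂ • e0 with hσ
  have hσρ : ∀ f ∈ F, ρ (σ f) ξ = f := by
    intro f hf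
    have h1 : ρ (σ f) ξ = q (∑ i, ⟪(u i : H), f⟫_ℂ • d i) + ⟪ξ, f⟫_ℂ • q e0 := by
      rw [← map_smul, ← map_add]
      rfl
    rw [h1, hq, hq, hρsum f hf, he0', smul_zero, add_zero]
  have hE3 : ∀ᶠ n in U, ∀ c ∈ C, ‖π (σ (ρ c ξ) - c) (ζ n)‖ ≤ η := by
    rw [Filter.eventually_all_finset]
    intro c hc
    refine hnull _ ?_ η hη
    have h1 : ρ (σ (ρ c ξ) - c) ξ = q (σ (ρ c ξ)) - q c := by
      rw [← map_sub]; rfl
    rw [h1, hq, hq, hσρ _ (hCF c (Finset.mem_insert_of_mem hc)), sub_self]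
  filter_upwards [hE1, hE2, hE3] with n h1 h2 h3
  let Z : H →L[ℂ] K := ∑ i, (innerSL ℂ (u i : H)).smulRight (π (d i) (ζ n)) +
    (innerSL ℂ ξ).smulRight (π e0 (ζ n))
  have hZ : ∀ f, Z f = ∑ i, ⟪(u i : H), f⟫_ℂ • π (d i) (ζ n) + ⟪ξ, f⟫_ℂ • π e0 (ζ n) := by
    intro f
    simp [Z]
  have hZσ : ∀ f, Z f = π (σ f) (ζ n) := by
    intro f
    rw [hZ, hσ]
    simp [map_sum]
  refine ⟨Z, ?_, ?_, ?_⟩
  · refine Z.opNorm_le_bound (by norm_num) fun f => ?_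
    rw [hZ]
    have h4 := gram_bound (fun i => π (d i) (ζ n)) (fun i => ⟪(u i : H), f⟫_ℂ) t ht0.le htr h1
    have h5 : ∑ i, ‖⟪(u i : H), f⟫_ℂ‖ ^ 2 ≤ ‖f‖ ^ 2 :=
      huo.sum_inner_products_le (s := Finset.univ) (x := f)
    have h6 : ‖∑ i, ⟪(u i : H), f⟫_ℂ • π (d i) (ζ n)‖ ≤ 3 / 2 * ‖f‖ := by
      refine abs_le_of_sq_le_sq' ?_ (by positivity) |>.2
      nlinarith [sq_nonneg ‖f‖]
    have h7 : ‖⟪ξ, f⟫_ℂ • π e0 (ζ n)‖ ≤ 1 / 2 * ‖f‖ := by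
      rw [norm_smul]
      have h8 : ‖⟪ξ, f⟫_ℂ‖ ≤ ‖f‖ := by
        have := norm_inner_le_norm (𝕜 := ℂ) ξ f
        rwa [hξ, one_mul] at this
      nlinarith [norm_nonneg (⟪ξ, f⟫_ℂ), norm_nonneg f, norm_nonneg (π e0 (ζ n))]
    calc _ ≤ _ := norm_add_le _ _
      _ ≤ 3 / 2 * ‖f‖ + 1 / 2 * ‖f‖ := add_le_add h6 h7
      _ = 2 * ‖f‖ := by ring
  · rw [hZσ]
    have h4 : σ ξ = 1 := by
      rw [hσ]
      simp only
      rw [inner_self_eq_norm_sq_to_K, hξ, he0]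
      simp
    rw [h4]
    simp
  · intro c hc
    have h4 : Z (ρ c ξ) - π c (ζ n) = π (σ (ρ c ξ) - c) (ζ n) := by
      rw [hZσ, map_sub]
      rfl
    rw [h4]
    exact h3 c hc

end AI

/-- almost intertwining operators from convergence of vector states -/
theorem exists_almost_intertwiner (B : Type u) [CStarAlgebra B]
    (H K : Type u) [NormedAddCommGroup H] [InnerProductSpace ℂ H] [CompleteSpace H]
    [NormedAddCommGroup K] [InnerProductSpace ℂ K] [CompleteSpace K]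
    (ρ : B →⋆ₐ[ℂ] (H →L[ℂ] H)) (π : B →⋆ₐ[ℂ] (K →L[ℂ] K)) (ζ : ℕ → K) (hζ : ∀ n, ‖ζ n‖ = 1)
    (ξ : H) (U : Filter ℕ) [U.NeBot]
    (hlim : ∀ b : B, Filter.Tendsto (fun n => ⟪ζ n, π b (ζ n)⟫_ℂ) U (nhds ⟪ξ, ρ b ξ⟫_ℂ))
    (hcyc : ∀ (h : H) (ε : ℝ), 0 < ε → ∃ c : B, ‖h - ρ c ξ‖ < ε)
    (s : Finset (B × H)) (ε : ℝ) (hε : 0 < ε) :
    ∀ᶠ n in U, ∃ Z : H →L[ℂ] K, ‖Z‖ ≤ 2 ∧ Z ξ = ζ n ∧ ∀ p ∈ s,
      ‖Z (ρ p.1 p.2) - π p.1 (Z p.2)‖ ≤ ε ∧ ‖⟪ζ n, Z p.2⟫_ℂ - ⟪ξ, p.2⟫_ℂ‖ ≤ ε := by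
  classical
  have hξ : ‖ξ‖ = 1 := by
    have h1 := hlim 1
    have h2 : (fun n => ⟪ζ n, π 1 (ζ n)⟫_ℂ) = fun _ => (1 : ℂ) := by
      funext n
      rw [map_one, ContinuousLinearMap.one_apply, inner_self_eq_norm_sq_to_K, hζ]
      simp
    rw [h2, map_one, ContinuousLinearMap.one_apply, inner_self_eq_norm_sq_to_K] at h1
    have h3 := tendsto_nhds_unique h1 tendsto_const_nhds
    have h5 : ((‖ξ‖ ^ 2 : ℝ) : ℂ) = ((1 : ℝ) : ℂ) := by simpa using h3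
    have h4 : (‖ξ‖ : ℝ) ^ 2 = 1 := Complex.ofReal_injective h5
    nlinarith [norm_nonneg ξ]
  -- a bound for the norms
  obtain ⟨L, hL0, hL⟩ : ∃ L : ℝ, 0 ≤ L ∧ ∀ p ∈ s, ‖p.1‖ ≤ L := by
    refine ⟨∑ p ∈ s, ‖p.1‖, Finset.sum_nonneg fun _ _ => norm_nonneg _, fun p hp => ?_⟩
    exact Finset.single_le_sum (f := fun p : B × H => ‖p.1‖) (fun _ _ => norm_nonneg _) hp
  set δ : ℝ := ε / (8 * (L + 1)) with hδ
  have hδ0 : 0 < δ := by positivity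
  set η : ℝ := ε / (4 * (L + 1)) with hη
  have hη0 : 0 < η := by positivity
  have e1 : 4 * L * δ ≤ ε / 2 := by
    rw [hδ]
    rw [mul_div_assoc', div_le_iff₀ (by positivity)]
    nlinarith
  have e2 : (1 + L) * η = ε / 4 := by
    rw [hη]
    field_simp
    ring
  have e3 : δ ≤ ε / 8 := by
    rw [hδ]
    exact div_le_div_of_nonneg_left hε.le (by norm_num) (by linarith)
  have e4 : η ≤ ε / 4 := by
    rw [hη]
    exact div_le_div_of_nonneg_left hε.le (by norm_num) (by linarith)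
  choose c hc using fun p : B × H => hcyc p.2 δ hδ0
  have hcore := ai_core ρ π ζ ξ hξ U hlim (s.image c ∪ s.image (fun p => p.1 * c p)) η hη0
  have hconv : ∀ᶠ n in U, ∀ p ∈ s, ‖⟪ζ n, π (c p) (ζ n)⟫_ℂ - ⟪ξ, ρ (c p) ξ⟫_ℂ‖ ≤ ε / 8 := by
    rw [Filter.eventually_all_finset]
    intro p _
    have h3 := (tendsto_iff_norm_sub_tendsto_zero.1 (hlim (c p))).eventually
      (gt_mem_nhds (by positivity : (0 : ℝ) < ε / 8))
    filter_upwards [h3] with n hn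
    exact hn.le
  filter_upwards [hcore, hconv] with n ⟨Z, hZ2, hZξ, hZC⟩ hn
  refine ⟨Z, hZ2, hZξ, fun p hp => ?_⟩
  have hC1 : ‖Z (ρ (c p) ξ) - π (c p) (ζ n)‖ ≤ η :=
    hZC _ (Finset.mem_union_left _ (Finset.mem_image_of_mem _ hp))
  have hC2 : ‖Z (ρ (p.1 * c p) ξ) - π (p.1 * c p) (ζ n)‖ ≤ η :=
    hZC _ (Finset.mem_union_right _ (Finset.mem_image_of_mem (fun p => p.1 * c p) hp))
  have hZle : ∀ x, ‖Z x‖ ≤ 2 * ‖x‖ := fun x =>
    (Z.le_opNorm x).trans (mul_le_mul_of_nonneg_right hZ2 (norm_nonneg _))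
  have hb := hL p hp
  have hcp := (hc p).le
  constructor
  · have h1 : Z (ρ p.1 p.2) - π p.1 (Z p.2) =
        Z (ρ p.1 (p.2 - ρ (c p) ξ)) + (Z (ρ (p.1 * c p) ξ) - π (p.1 * c p) (ζ n)) -
        π p.1 (Z (ρ (c p) ξ) - π (c p) (ζ n)) - π p.1 (Z (p.2 - ρ (c p) ξ)) := by
      rw [map_mul ρ, map_mul π]
      simp only [ContinuousLinearMap.mul_apply, map_sub]
      abel
    rw [h1]
    have n1 : ‖Z (ρ p.1 (p.2 - ρ (c p) ξ))‖ ≤ 2 * (L * δ) := by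
      refine (hZle _).trans (mul_le_mul_of_nonneg_left ?_ (by norm_num))
      refine (ai_norm_le ρ _ _).trans ?_
      exact mul_le_mul hb hcp (norm_nonneg _) hL0
    have n2 : ‖π p.1 (Z (ρ (c p) ξ) - π (c p) (ζ n))‖ ≤ L * η := by
      refine (ai_norm_le π _ _).trans ?_
      exact mul_le_mul hb hC1 (norm_nonneg _) hL0
    have n3 : ‖π p.1 (Z (p.2 - ρ (c p) ξ))‖ ≤ L * (2 * δ) := by
      refine (ai_norm_le π _ _).trans ?_
      exact mul_le_mul hb ((hZle _).trans (mul_le_mul_of_nonneg_left hcp (by norm_num)))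
        (norm_nonneg _) hL0
    calc _ ≤ ‖Z (ρ p.1 (p.2 - ρ (c p) ξ))‖ + ‖Z (ρ (p.1 * c p) ξ) - π (p.1 * c p) (ζ n)‖ +
          ‖π p.1 (Z (ρ (c p) ξ) - π (c p) (ζ n))‖ + ‖π p.1 (Z (p.2 - ρ (c p) ξ))‖ := by
          refine (norm_sub_le _ _).trans (add_le_add_left ?_ _)
          refine (norm_sub_le _ _).trans (add_le_add_left ?_ _)
          exact norm_add_le _ _
      _ ≤ 2 * (L * δ) + η + L * η + L * (2 * δ) := by
          gcongr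
      _ = 4 * L * δ + (1 + L) * η := by ring
      _ ≤ ε := by linarith
  · have h1 : ⟪ζ n, Z p.2⟫_ℂ - ⟪ξ, p.2⟫_ℂ =
        ⟪ζ n, Z (p.2 - ρ (c p) ξ)⟫_ℂ + ⟪ζ n, Z (ρ (c p) ξ) - π (c p) (ζ n)⟫_ℂ +
        (⟪ζ n, π (c p) (ζ n)⟫_ℂ - ⟪ξ, ρ (c p) ξ⟫_ℂ) - ⟪ξ, p.2 - ρ (c p) ξ⟫_ℂ := by
      simp only [map_sub, inner_sub_right]
      ring
    rw [h1]
    have n1 : ‖⟪ζ n, Z (p.2 - ρ (c p) ξ)⟫_ℂ‖ ≤ 2 * δ := by
      refine (norm_inner_le_norm _ _).trans ?_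
      rw [hζ, one_mul]
      exact (hZle _).trans (mul_le_mul_of_nonneg_left hcp (by norm_num))
    have n2 : ‖⟪ζ n, Z (ρ (c p) ξ) - π (c p) (ζ n)⟫_ℂ‖ ≤ η := by
      refine (norm_inner_le_norm _ _).trans ?_
      rw [hζ, one_mul]
      exact hC1
    have n3 : ‖⟪ξ, p.2 - ρ (c p) ξ⟫_ℂ‖ ≤ δ := by
      refine (norm_inner_le_norm _ _).trans ?_
      rw [hξ, one_mul]
      exact hcp
    have n4 := hn p hp
    calc _ ≤ ‖⟪ζ n, Z (p.2 - ρ (c p) ξ)⟫_ℂ‖ + ‖⟪ζ n, Z (ρ (c p) ξ) - π (c p) (ζ n)⟫_ℂ‖ +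
          ‖⟪ζ n, π (c p) (ζ n)⟫_ℂ - ⟪ξ, ρ (c p) ξ⟫_ℂ‖ + ‖⟪ξ, p.2 - ρ (c p) ξ⟫_ℂ‖ := by
          refine (norm_sub_le _ _).trans (add_le_add_left ?_ _)
          refine (norm_add_le _ _).trans (add_le_add_left ?_ _)
          exact norm_add_le _ _
      _ ≤ 2 * δ + η + ε / 8 + δ := by
          gcongr
      _ ≤ ε := by linarith

end Pool.Agent.Helper832.CD.J7
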