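import Mathlib
import Pool.Agent.Helper832.CD.Base
import Pool.Agent.Helper832.CD.J4a
import Pool.Agent.Helper832.CD.J4b
import Pool.Agent.Helper832.CD.J4c
import Pool.Agent.Helper832.CD.J5
import Pool.Agent.Helper832.CD.J6a
import Pool.Agent.Helper832.CD.J6b
import Pool.Agent.Helper832.CD.J7

set_option autoImplicit false

namespace Pool.Agent.Helper832.CD

open scoped InnerProductSpace
open Filter Topology

universe u

/-- infinite dimensional C*-algebras contain orthogonal sequences -/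
theorem exists_orth (A : Type u) [NonUnitalCStarAlgebra A] (h : ¬ FiniteDimensional ℂ A) :
    ∃ a b : ℕ → A, (∀ n, IsSelfAdjoint (a n)) ∧ (∀ n, ‖a n‖ ≤ 1) ∧ (∀ n, b n ≠ 0) ∧
      (∀ n, a n * b n = b n) ∧ ∀ m n, m ≠ n → a m * a n = 0 := by
  by_cases h1 : ∃ x : A, IsSelfAdjoint x ∧ (quasispectrum ℝ x).Infinite
  · obtain ⟨x, hx, hs⟩ := h1
    exact J4a.exists_orth_of_infinite_spectrum A x hx hs
  · push Not at h1
    have h2 : ∀ x : A, IsSelfAdjoint x →
        x ∈ Submodule.span ℂ {q : A | IsSelfAdjoint q ∧ q * q = q ∧ ∃ y, q = x * y ∧ q = y * x} :=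
      fun x hx => J4b.mem_span_of_finite_spectrum A x hx (h1 x hx)
    by_contra h3
    refine h (J4c.finiteDimensional_of_no_orth A h2 ?_)
    rintro ⟨p, hp1, hp2, hp3, hp4⟩
    refine h3 ⟨p, p, hp1, fun n => ?_, hp3, hp2, hp4⟩
    have h4 : ‖p n‖ = ‖p n‖ * ‖p n‖ := by
      have := CStarRing.norm_star_mul_self (x := p n)
      rwa [(hp1 n).star_eq, hp2 n] at this
    nlinarith [norm_nonneg (p n), norm_pos_iff.mpr (hp3 n)]

/-- the left regular type action obtained from a representation of the unitization -/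
theorem exists_action (A : Type u) [NonUnitalCStarAlgebra A] (H : Type u)
    [NormedAddCommGroup H] [InnerProductSpace ℂ H] [CompleteSpace H]
    (ρ : Unitization ℂ A →⋆ₐ[ℂ] (H →L[ℂ] H)) :
    ∃ ρ' : A →L[ℂ] H →L[ℂ] H, (∀ x, ρ' x = ρ (x : Unitization ℂ A)) ∧ ∀ x, ‖ρ' x‖ ≤ ‖x‖ := by
  have hb : ∀ x : A, ‖ρ (x : Unitization ℂ A)‖ ≤ ‖x‖ := by
    intro x
    refine (NonUnitalStarAlgHom.norm_apply_le ρ _).trans ?_
    rw [Unitization.norm_inr]
  refine ⟨LinearMap.mkContinuous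
    { toFun := fun x => ρ (x : Unitization ℂ A)
      map_add' := fun x y => by rw [Unitization.inr_add, map_add]
      map_smul' := fun r x => by rw [Unitization.inr_smul, map_smul]; rfl } 1 (fun x => by
        rw [one_mul]; exact hb x), fun x => rfl, fun x => hb x⟩

theorem exists_data (A : Type u) [NonUnitalCStarAlgebra A] (h : ¬ FiniteDimensional ℂ A) :
    Nonempty (Data A) := by
  classical
  obtain ⟨a, b, ha1, ha2, hb, hab, ha3⟩ := exists_orth A h
  obtain ⟨K, iK1, iK2, iK3, π, η, hη⟩ := J6a.CDst.exists_rep (Unitization ℂ A)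
    (fun n => (b n : Unitization ℂ A)) (fun n h0 => hb n (Unitization.inr_injective (by
      rw [h0, Unitization.inr_zero])))
  set w : ℕ → K := fun n => π (b n : Unitization ℂ A) (η n) with hw
  set ζ : ℕ → K := fun n => ((‖w n‖ : ℂ)⁻¹) • w n with hζdef
  have hwn : ∀ n, ‖w n‖ ≠ 0 := fun n => norm_ne_zero_iff.mpr (hη n)
  have hζ : ∀ n, ‖ζ n‖ = 1 := by
    intro n
    rw [hζdef]
    simp only [norm_smul, norm_inv, Complex.norm_real, norm_norm]
    exact inv_mul_cancel₀ (hwn n)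
  have haζ : ∀ n, π (a n : Unitization ℂ A) (ζ n) = ζ n := by
    intro n
    have h1 : π (a n : Unitization ℂ A) (w n) = w n := by
      rw [hw]
      show (π (a n : Unitization ℂ A) * π (b n : Unitization ℂ A)) (η n) = _
      rw [← map_mul, ← Unitization.inr_mul, hab]
    rw [hζdef]
    simp only [map_smul, h1]
  obtain ⟨U, H, iH1, iH2, iH3, ρ, ξ, hU, hlim, hcyc⟩ :=
    J6b.exists_limit_rep (Unitization ℂ A) K π ζ hζ
  have hξ : ‖ξ‖ = 1 := by
    have h1 := hlim 1
    have h2 : ∀ n, ⟪ζ n, π 1 (ζ n)⟫_ℂ = 1 := by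
      intro n
      rw [map_one]
      show ⟪ζ n, ζ n⟫_ℂ = 1
      rw [inner_self_eq_norm_sq_to_K, hζ]; simp
    simp only [h2] at h1
    have h3 := tendsto_nhds_unique h1 tendsto_const_nhds
    rw [map_one] at h3
    have h4 : ⟪ξ, ξ⟫_ℂ = 1 := h3
    have h5 : ‖ξ‖ ^ 2 = 1 := by
      rw [← inner_self_eq_norm_sq (𝕜 := ℂ), h4]
      simp
    have h6 : (0 : ℝ) ≤ ‖ξ‖ := norm_nonneg _
    nlinarith
  have haa : ∀ n k, k ≠ n → π (a n : Unitization ℂ A) (ζ k) = 0 := by
    intro n k hk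
    rw [← haζ k]
    show (π (a n : Unitization ℂ A) * π (a k : Unitization ℂ A)) (ζ k) = 0
    rw [← map_mul, ← Unitization.inr_mul, ha3 n k (Ne.symm hk), Unitization.inr_zero, map_zero]
    rfl
  have hstar : ∀ (x : Unitization ℂ A) (k k' : K), ⟪π (star x) k, k'⟫_ℂ = ⟪k, π x k'⟫_ℂ := by
    intro x k k'
    rw [map_star, ContinuousLinearMap.star_eq_adjoint, ContinuousLinearMap.adjoint_inner_left]
  have hstar' : ∀ (x : Unitization ℂ A) (k k' : H), ⟪ρ (star x) k, k'⟫_ℂ = ⟪k, ρ x k'⟫_ℂ := by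
    intro x k k'
    rw [map_star, ContinuousLinearMap.star_eq_adjoint, ContinuousLinearMap.adjoint_inner_left]
  have hastar : ∀ n, star (a n : Unitization ℂ A) = (a n : Unitization ℂ A) := by
    intro n
    rw [← Unitization.inr_star, (ha1 n).star_eq]
  have haξ : ∀ n, ρ (a n : Unitization ℂ A) ξ = 0 := by
    intro n
    have h1 := hlim ((a n : Unitization ℂ A) * (a n : Unitization ℂ A))
    have h2 : ∀ᶠ k in (U : Filter ℕ),
        ⟪ζ k, π ((a n : Unitization ℂ A) * (a n : Unitization ℂ A)) (ζ k)⟫_ℂ = 0 := by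
      filter_upwards [hU (n + 1)] with k hk
      rw [map_mul]
      show ⟪ζ k, π (a n : Unitization ℂ A) (π (a n : Unitization ℂ A) (ζ k))⟫_ℂ = 0
      rw [haa n k (by omega), map_zero, inner_zero_right]
    have h3 := tendsto_nhds_unique (h1.congr' h2) tendsto_const_nhds
    rw [map_mul] at h3
    have h4 : ⟪ξ, ρ (a n : Unitization ℂ A) (ρ (a n : Unitization ℂ A) ξ)⟫_ℂ = 0 := h3
    rw [← hstar', hastar] at h4
    exact inner_self_eq_zero.mp h4
  obtain ⟨ρ', hρ', hρn⟩ := exists_action A H ρ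
  obtain ⟨π', hπ', hπn⟩ := exists_action A K π
  refine ⟨{ H := H, K := K, ρ := ρ', π := π', a := a, ζ := ζ, ξ := ξ
            ρ_mul := ?_, π_mul := ?_, ρ_star := ?_, π_star := ?_
            ρ_norm := hρn, π_norm := hπn, a_star := fun n => (ha1 n).star_eq
            a_orth := ha3, a_norm := J5.norm_orth_sum_le A a ha1 ha2 ha3
            ζ_norm := hζ, a_ζ := ?_, ξ_norm := hξ, a_ξ := ?_, el := ?_ }⟩
  · intro x y k
    rw [hρ', hρ', hρ', Unitization.inr_mul, map_mul]; rfl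
  · intro x y k
    rw [hπ', hπ', hπ', Unitization.inr_mul, map_mul]; rfl
  · intro x k k'
    rw [hρ', hρ', Unitization.inr_star]
    exact hstar' _ _ _
  · intro x k k'
    rw [hπ', hπ', Unitization.inr_star]
    exact hstar _ _ _
  · intro n
    rw [hπ']; exact haζ n
  · intro n
    rw [hρ']; exact haξ n
  · intro s ε hε N
    have h1 := J7.exists_almost_intertwiner (Unitization ℂ A) H K ρ π ζ hζ ξ (U : Filter ℕ) hlim
      hcyc (s.image (fun p => ((p.1 : Unitization ℂ A), p.2))) ε hε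
    obtain ⟨n, hn, Z, hZ1, hZ2, hZ3⟩ := ((hU N).and h1).exists
    refine ⟨n, hn, Z, hZ1, hZ2, fun p hp => ?_⟩
    have := hZ3 _ (Finset.mem_image_of_mem _ hp)
    rw [hρ', hπ']
    exact this

end Pool.Agent.Helper832.CD
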