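import Mathlib
import Pool.Agent.Helper832.CD.Stmt
import Pool.Agent.Helper832.CD.Base

set_option autoImplicit false

namespace Pool.Agent.Helper832.CD

universe u

variable {A : Type u} [NonUnitalNormedRing A] [NormedSpace ℂ A]

section liftproof

variable {M V : Type u} [NormedAddCommGroup M] [NormedSpace ℂ M]
    [NormedAddCommGroup V] [NormedSpace ℂ V]

lemma bbm_left (αV : A →L[ℂ] V →L[ℂ] V) :
    IsBoundedBilinearMap ℂ (fun p : A × (M →L[ℂ] V) => (αV p.1).comp p.2) where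
  add_left := fun a b x => by ext y; simp
  smul_left := fun c a x => by ext y; simp
  add_right := fun a x y => by ext z; simp
  smul_right := fun c a x => by ext y; simp
  bound := ⟨‖αV‖ + 1, by positivity, fun a x => by
    refine (ContinuousLinearMap.opNorm_comp_le _ _).trans ?_
    have h1 := αV.le_opNorm a
    have h2 := norm_nonneg x
    have h3 := norm_nonneg a
    have h4 := norm_nonneg αV
    nlinarith [mul_nonneg h2 h3, mul_le_mul_of_nonneg_right h1 h2]⟩

lemma bbm_right (αM : A →L[ℂ] M →L[ℂ] M) :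
    IsBoundedBilinearMap ℂ (fun p : A × (M →L[ℂ] V) => p.2.comp (αM p.1)) where
  add_left := fun a b x => by ext y; simp
  smul_left := fun c a x => by ext y; simp
  add_right := fun a x y => by ext z; simp
  smul_right := fun c a x => by ext y; simp
  bound := ⟨‖αM‖ + 1, by positivity, fun a x => by
    refine (ContinuousLinearMap.opNorm_comp_le _ _).trans ?_
    have h1 := αM.le_opNorm a
    have h2 := norm_nonneg x
    have h3 := norm_nonneg a
    have h4 := norm_nonneg αM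
    nlinarith [mul_nonneg h2 h3, mul_le_mul_of_nonneg_left h1 h2]⟩

/-- the bimodule of operators -/
noncomputable def homB [CompleteSpace V] (αM : A →L[ℂ] M →L[ℂ] M) (αV : A →L[ℂ] V →L[ℂ] V)
    (hM : ∀ a b x, αM (a * b) x = αM a (αM b x)) (hV : ∀ a b x, αV (a * b) x = αV a (αV b x)) :
    BMod A where
  carrier := M →L[ℂ] V
  left := fun a T => (αV a).comp T
  right := fun a T => T.comp (αM a)
  left_bdd := bbm_left αV
  right_bdd := bbm_right αM
  left_mul := fun a b T => by ext x; simp [hV]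
  right_mul := fun a b T => by ext x; simp [hM]
  left_right := fun a b T => rfl

/-- action of the unitization -/
noncomputable def dot (αV : A →L[ℂ] V →L[ℂ] V) (b : Plus A) (T : M →L[ℂ] V) : M →L[ℂ] V :=
  b.fst • T + (αV b.snd).comp T

lemma dot_apply (αV : A →L[ℂ] V →L[ℂ] V) (b : Plus A) (T : M →L[ℂ] V) (x : M) :
    dot αV b T x = b.fst • T x + αV b.snd (T x) := rfl

variable [IsScalarTower ℂ A A] [SMulCommClass ℂ A A]

lemma bbm_ext_right (αM : A →L[ℂ] M →L[ℂ] M) (αV : A →L[ℂ] V →L[ℂ] V) (D : A →L[ℂ] M →L[ℂ] V) :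
    IsBoundedBilinearMap ℂ (fun p : A × ((M →L[ℂ] V) × Plus A) =>
      ((p.2.1.comp (αM p.1) + dot αV p.2.2 (D p.1), plusRight p.1 p.2.2) : (M →L[ℂ] V) × Plus A)) where
  add_left := fun a b x => by
    refine Prod.ext ?_ (plusRight_bdd.add_left a b x.2)
    ext y
    simp only [Prod.fst_add, _root_.add_apply, ContinuousLinearMap.comp_apply, dot_apply, map_add,
      smul_add]
    abel
  smul_left := fun c a x => by
    refine Prod.ext ?_ (plusRight_bdd.smul_left c a x.2)
    ext y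
    simp only [Prod.smul_fst, _root_.add_apply, _root_.smul_apply, ContinuousLinearMap.comp_apply, dot_apply,
      map_smul, smul_add]
    rw [smul_comm]
  add_right := fun a x y => by
    refine Prod.ext ?_ (plusRight_bdd.add_right a x.2 y.2)
    ext z
    have e1 : (x.2 + y.2).fst = x.2.fst + y.2.fst := rfl
    have e2 : (x.2 + y.2).snd = x.2.snd + y.2.snd := rfl
    simp only [Prod.fst_add, Prod.snd_add, _root_.add_apply, ContinuousLinearMap.comp_apply, dot_apply, e1, e2,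
      map_add, add_smul]
    abel
  smul_right := fun c a x => by
    refine Prod.ext ?_ (plusRight_bdd.smul_right c a x.2)
    ext z
    have e1 : (c • x.2).fst = c * x.2.fst := rfl
    have e2 : (c • x.2).snd = c • x.2.snd := rfl
    simp only [Prod.smul_fst, Prod.smul_snd, _root_.add_apply, _root_.smul_apply, ContinuousLinearMap.comp_apply,
      dot_apply, e1, e2, map_smul, smul_add, mul_smul]
  bound := ⟨‖αM‖ + (1 + ‖αV‖) * ‖D‖ + 1, by positivity, fun a x => by
    have hx1 : ‖x.1‖ ≤ ‖x‖ := norm_fst_le x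
    have hx2 : ‖x.2‖ ≤ ‖x‖ := norm_snd_le x
    have h0 := norm_nonneg a
    have hx0 := norm_nonneg x
    rw [Prod.norm_def]
    refine max_le ?_ ?_
    · have h1 : ‖x.1.comp (αM a)‖ ≤ ‖x‖ * (‖αM‖ * ‖a‖) :=
        (ContinuousLinearMap.opNorm_comp_le _ _).trans
          (mul_le_mul hx1 (αM.le_opNorm a) (norm_nonneg _) hx0)
      have h2 : ‖dot αV x.2 (D a)‖ ≤ ‖x‖ * (1 + ‖αV‖) * (‖D‖ * ‖a‖) := by
        unfold dot
        refine (norm_add_le _ _).trans ?_
        have h3 : ‖x.2.fst • D a‖ ≤ ‖x.2.fst‖ * (‖D‖ * ‖a‖) := by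
          rw [norm_smul]
          exact mul_le_mul_of_nonneg_left (D.le_opNorm a) (norm_nonneg _)
        have h4 : ‖(αV x.2.snd).comp (D a)‖ ≤ (‖αV‖ * ‖x.2.snd‖) * (‖D‖ * ‖a‖) :=
          (ContinuousLinearMap.opNorm_comp_le _ _).trans
            (mul_le_mul (αV.le_opNorm _) (D.le_opNorm a) (norm_nonneg _) (by positivity))
        have h5 : ‖x.2.fst‖ + ‖x.2.snd‖ ≤ ‖x‖ := by
          rw [← plus_norm]
          exact hx2
        have h6 : 0 ≤ ‖D‖ * ‖a‖ := by positivity
        have h7 : ‖x.2.fst‖ + ‖αV‖ * ‖x.2.snd‖ ≤ ‖x‖ * (1 + ‖αV‖) := by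
          have := norm_nonneg x.2.fst
          have := norm_nonneg x.2.snd
          have := norm_nonneg αV
          nlinarith
        calc ‖x.2.fst • D a‖ + ‖(αV x.2.snd).comp (D a)‖ ≤
            ‖x.2.fst‖ * (‖D‖ * ‖a‖) + (‖αV‖ * ‖x.2.snd‖) * (‖D‖ * ‖a‖) := add_le_add h3 h4
          _ = (‖x.2.fst‖ + ‖αV‖ * ‖x.2.snd‖) * (‖D‖ * ‖a‖) := by ring
          _ ≤ _ := mul_le_mul_of_nonneg_right h7 h6
      refine (norm_add_le _ _).trans ((add_le_add h1 h2).trans ?_)
      have h8 : 0 ≤ ‖a‖ * ‖x‖ := by positivity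
      nlinarith
    · have h1 : ‖plusRight a x.2‖ ≤ ‖a‖ * ‖x‖ := by
        rw [plus_norm]
        show ‖(0 : ℂ)‖ + ‖x.2.fst • a + x.2.snd * a‖ ≤ ‖a‖ * ‖x‖
        rw [norm_zero, zero_add]
        refine (norm_add_le _ _).trans ?_
        have h1 := norm_mul_le x.2.snd a
        rw [norm_smul]
        have h5 : ‖x.2.fst‖ + ‖x.2.snd‖ ≤ ‖x‖ := by
          rw [← plus_norm]
          exact hx2
        nlinarith
      refine h1.trans ?_
      have h8 : 0 ≤ ‖a‖ * ‖x‖ := by positivity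
      have h9 : 0 ≤ ‖αM‖ + (1 + ‖αV‖) * ‖D‖ := by positivity
      nlinarith⟩

lemma bbm_ext_left (αV : A →L[ℂ] V →L[ℂ] V) :
    IsBoundedBilinearMap ℂ (fun p : A × ((M →L[ℂ] V) × Plus A) =>
      (((αV p.1).comp p.2.1, plusLeft p.1 p.2.2) : (M →L[ℂ] V) × Plus A)) where
  add_left := fun a b x => Prod.ext ((bbm_left αV).add_left a b x.1) (plusLeft_bdd.add_left a b x.2)
  smul_left := fun c a x => Prod.ext ((bbm_left αV).smul_left c a x.1) (plusLeft_bdd.smul_left c a x.2)
  add_right := fun a x y => Prod.ext ((bbm_left αV).add_right a x.1 y.1)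
    (plusLeft_bdd.add_right a x.2 y.2)
  smul_right := fun c a x => Prod.ext ((bbm_left αV).smul_right c a x.1)
    (plusLeft_bdd.smul_right c a x.2)
  bound := by
    obtain ⟨C1, hC1, h1⟩ := (bbm_left (M := M) αV).bound
    obtain ⟨C2, hC2, h2⟩ := (plusLeft_bdd (A := A)).bound
    refine ⟨C1 + C2, by positivity, fun a x => ?_⟩
    have hx1 : ‖x.1‖ ≤ ‖x‖ := norm_fst_le x
    have hx2 : ‖x.2‖ ≤ ‖x‖ := norm_snd_le x
    have h0 := norm_nonneg a
    have hx0 := norm_nonneg x
    rw [Prod.norm_def]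
    refine max_le ?_ ?_
    · refine (h1 a x.1).trans ?_
      calc C1 * ‖a‖ * ‖x.1‖ ≤ C1 * ‖a‖ * ‖x‖ := mul_le_mul_of_nonneg_left hx1 (by positivity)
        _ ≤ (C1 + C2) * ‖a‖ * ‖x‖ := by gcongr; linarith
    · refine (h2 a x.2).trans ?_
      calc C2 * ‖a‖ * ‖x.2‖ ≤ C2 * ‖a‖ * ‖x‖ := mul_le_mul_of_nonneg_left hx2 (by positivity)
        _ ≤ (C1 + C2) * ‖a‖ * ‖x‖ := by gcongr; linarith

/-- the extension bimodule -/
noncomputable def extB [CompleteSpace V] [CompleteSpace A] (αM : A →L[ℂ] M →L[ℂ] M) (αV : A →L[ℂ] V →L[ℂ] V)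
    (hM : ∀ a b x, αM (a * b) x = αM a (αM b x)) (hV : ∀ a b x, αV (a * b) x = αV a (αV b x))
    (D : A →L[ℂ] M →L[ℂ] V) (hD : ∀ a b x, D (a * b) x = αV a (D b x) + D a (αM b x)) :
    BMod A where
  carrier := (M →L[ℂ] V) × Plus A
  left := fun a x => ((αV a).comp x.1, plusLeft a x.2)
  right := fun a x => (x.1.comp (αM a) + dot αV x.2 (D a), plusRight a x.2)
  left_bdd := bbm_ext_left αV
  right_bdd := bbm_ext_right αM αV D
  left_mul := fun a b x => by
    refine Prod.ext ?_ (plusLeft_mul a b x.2)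
    ext y
    simp [hV]
  right_mul := fun a b x => by
    refine Prod.ext ?_ (plusRight_mul a b x.2)
    ext y
    show x.1 (αM (a * b) y) + dot αV x.2 (D (a * b)) y =
      (x.1 (αM a (αM b y)) + dot αV x.2 (D a) (αM b y)) + dot αV (plusRight a x.2) (D b) y
    simp only [dot_apply]
    show _ = x.1 (αM a (αM b y)) + (x.2.fst • D a (αM b y) + αV x.2.snd (D a (αM b y))) +
      ((0 : ℂ) • D b y + αV (x.2.fst • a + x.2.snd * a) (D b y))
    have e : αV (x.2.fst • a + x.2.snd * a) (D b y) =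
        x.2.fst • αV a (D b y) + αV x.2.snd (αV a (D b y)) := by
      rw [map_add αV, map_smul αV, _root_.add_apply, _root_.smul_apply, hV]
    rw [e, hM, hD, zero_smul, map_add (αV x.2.snd), smul_add]
    abel
  left_right := fun a b x => by
    refine Prod.ext ?_ (plusLeft_plusRight a b x.2)
    ext y
    show αV a (x.1 (αM b y) + dot αV x.2 (D b) y) =
      αV a (x.1 (αM b y)) + dot αV (plusLeft a x.2) (D b) y
    simp only [dot_apply]
    show _ = αV a (x.1 (αM b y)) +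
      ((0 : ℂ) • D b y + αV (x.2.fst • a + a * x.2.snd) (D b y))
    rw [zero_smul, map_add αV, map_smul, _root_.add_apply, _root_.smul_apply, hV]
    simp only [map_add, map_smul]
    abel

end liftproof

theorem lifts_of_db_le (A : Type u) [NonUnitalNormedRing A] [NormedSpace ℂ A]
    [IsScalarTower ℂ A A] [SMulCommClass ℂ A A] [CompleteSpace A] (h : db A ≤ 1) :
    Lifts A := by
  obtain ⟨R, hR⟩ : ∃ R : BMod.Resolution (plusBMod A), ∀ i, 2 ≤ i → Subsingleton (R.P i).carrier := by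
    by_contra hcon
    have h2 : (2 : ℕ∞) ≤ db A := by
      unfold db BMod.dh
      refine le_iInf fun n => le_iInf fun hn => ?_
      by_contra hlt
      rw [not_le] at hlt
      have hn2 : n < 2 := by exact_mod_cast hlt
      obtain ⟨R, hR⟩ := hn
      exact hcon ⟨R, fun i hi => hR i (by omega)⟩
    have := h2.trans h
    norm_num at this
  intro M V Q _ _ _ _ _ _ _ _ _ αM αV αQ hM hV hQ q s hq hs D hD
  -- lift of `ε`
  obtain ⟨Φ, hΦ, hΦε⟩ := R.projective 0 (extB αM αV hM hV D hD) (plusBMod A) Prod.snd R.ε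
    ⟨(ContinuousLinearMap.snd ℂ (M →L[ℂ] V) (Plus A)).isBoundedLinearMap, fun a x => rfl,
      fun a x => rfl⟩
    ⟨fun b => (0, b), (ContinuousLinearMap.inr ℂ (M →L[ℂ] V) (Plus A)).isBoundedLinearMap,
      fun y => rfl⟩ R.ε_hom
  obtain ⟨hΦb, hΦl, hΦr⟩ := hΦ
  let ψ : (R.P 0).carrier → (M →L[ℂ] V) := fun p => (Φ p).1
  have hψb : IsBoundedLinearMap ℂ ψ :=
    (ContinuousLinearMap.fst ℂ (M →L[ℂ] V) (Plus A)).isBoundedLinearMap.comp hΦb
  have hψl : ∀ a p, ψ ((R.P 0).left a p) = (αV a).comp (ψ p) := fun a p =>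
    congrArg Prod.fst (hΦl a p)
  have hψr : ∀ a p, ψ ((R.P 0).right a p) = (ψ p).comp (αM a) + dot αV (R.ε p) (D a) := by
    intro a p
    have h1 := congrArg Prod.fst (hΦr a p)
    have h2 : (Φ p).2 = R.ε p := hΦε p
    rw [← h2]
    exact h1
  -- `θ`
  obtain ⟨hdb, hdl, hdr⟩ := R.d_hom 0
  let θ : (R.P 1).carrier → (M →L[ℂ] V) := fun p => ψ (R.d 0 p)
  have hθ : BMod.IsHom (R.P 1) (homB αM αV hM hV) θ := by
    refine ⟨hψb.comp hdb, fun a x => ?_, fun a x => ?_⟩
    · show ψ (R.d 0 ((R.P 1).left a x)) = (αV a).comp (ψ (R.d 0 x))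
      rw [hdl, hψl]
    · show ψ (R.d 0 ((R.P 1).right a x)) = (ψ (R.d 0 x)).comp (αM a)
      rw [hdr, hψr, R.ε_d]
      ext y
      show _ + ((0 : Plus A).fst • D a y + αV (0 : Plus A).snd (D a y)) = _
      have e1 : (0 : Plus A).fst = 0 := rfl
      have e2 : (0 : Plus A).snd = 0 := rfl
      rw [e1, e2]
      simp
  obtain ⟨θ', hθ', hqθ⟩ := R.projective 1 (homB αM αQ hM hQ) (homB αM αV hM hV)
    (fun T : M →L[ℂ] Q => q.comp T) θ
    ⟨((ContinuousLinearMap.compL ℂ M Q V) q).isBoundedLinearMap,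
      fun a (x : M →L[ℂ] Q) => by
        show q.comp ((αQ a).comp x) = (αV a).comp (q.comp x)
        ext y
        exact hq a (x y),
      fun a (x : M →L[ℂ] Q) => rfl⟩
    ⟨fun T : M →L[ℂ] V => s.comp T, ((ContinuousLinearMap.compL ℂ M V Q) s).isBoundedLinearMap,
      fun (y : M →L[ℂ] V) => by
        show q.comp (s.comp y) = y
        ext z
        exact hs (y z)⟩ hθ
  let θQ : (R.P 1).carrier → (M →L[ℂ] Q) := θ'
  have hθb : IsBoundedLinearMap ℂ θQ := hθ'.1
  have hθl : ∀ a x, θQ ((R.P 1).left a x) = (αQ a).comp (θQ x) := hθ'.2.1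
  have hθr : ∀ a x, θQ ((R.P 1).right a x) = (θQ x).comp (αM a) := hθ'.2.2
  have hqθ' : ∀ p, q.comp (θQ p) = θ p := hqθ
  -- the element `p0`
  let e : Plus A := WithLp.toLp 1 ((1 : ℂ), (0 : A))
  let p0 : (R.P 0).carrier := R.s' e
  have hεp0 : R.ε p0 = e := R.ε_s e
  have hle : ∀ a : A, plusLeft a e = plusRight a e := by
    intro a
    refine plus_ext rfl ?_
    show (1 : ℂ) • a + a * 0 = (1 : ℂ) • a + 0 * a
    rw [mul_zero, zero_mul]
  obtain ⟨hεb, hεl, hεr⟩ := R.ε_hom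
  let g : A → (R.P 0).carrier := fun a => (R.P 0).left a p0 - (R.P 0).right a p0
  have hgε : ∀ a, R.ε (g a) = 0 := by
    intro a
    show R.ε ((R.P 0).left a p0 - (R.P 0).right a p0) = 0
    rw [hεb.map_sub, hεl, hεr, hεp0]
    show plusLeft a e - plusRight a e = 0
    rw [hle, sub_self]
  let γ : A → (R.P 1).carrier := fun a => R.s 0 (g a)
  have hιγ : ∀ a, R.d 0 (γ a) = g a := by
    intro a
    have h1 := R.h_zero (g a)
    rw [hgε, R.s'_bdd.map_zero, zero_add] at h1
    exact h1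
  have hsι : ∀ x, R.s 0 (R.d 0 x) = x := by
    intro x
    have h1 := R.h_succ 0 x
    haveI := hR 2 le_rfl
    have h2 : R.s 1 x = 0 := Subsingleton.elim (α := (R.P 2).carrier) _ _
    have h3 : R.d 1 (0 : (R.P 2).carrier) = 0 := (R.d_hom 1).1.map_zero
    have h4 : R.s (0 + 1) x = R.s 1 x := rfl
    have h5 : R.d (0 + 1) (R.s (0 + 1) x) = 0 := by
      rw [h4, h2]
      exact h3
    rw [h5, add_zero] at h1
    exact h1
  have hinj : ∀ x y, R.d 0 x = R.d 0 y → x = y := by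
    intro x y hxy
    rw [← hsι x, ← hsι y, hxy]
  have hladd : ∀ a x y, (R.P 0).left a (x + y) = (R.P 0).left a x + (R.P 0).left a y :=
    fun a x y => (R.P 0).left_bdd.add_right a x y
  have hlsub : ∀ a x y, (R.P 0).left a (x - y) = (R.P 0).left a x - (R.P 0).left a y := by
    intro a x y
    exact ((R.P 0).left_bdd.isBoundedLinearMap_right a).map_sub x y
  have hrsub : ∀ a x y, (R.P 0).right a (x - y) = (R.P 0).right a x - (R.P 0).right a y := by
    intro a x y
    exact ((R.P 0).right_bdd.isBoundedLinearMap_right a).map_sub x y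
  have hγmul : ∀ a b, γ (a * b) = (R.P 1).left a (γ b) + (R.P 1).right b (γ a) := by
    intro a b
    apply hinj
    rw [hdb.map_add, hdl, hdr, hιγ, hιγ, hιγ]
    show (R.P 0).left (a * b) p0 - (R.P 0).right (a * b) p0 =
      (R.P 0).left a ((R.P 0).left b p0 - (R.P 0).right b p0) +
      (R.P 0).right b ((R.P 0).left a p0 - (R.P 0).right a p0)
    rw [hlsub, hrsub, (R.P 0).left_mul, (R.P 0).right_mul, (R.P 0).left_right]
    abel
  have hθγ : ∀ a, θ (γ a) = (αV a).comp (ψ p0) - (ψ p0).comp (αM a) - D a := by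
    intro a
    show ψ (R.d 0 (γ a)) = _
    rw [hιγ]
    show ψ ((R.P 0).left a p0 - (R.P 0).right a p0) = _
    rw [hψb.map_sub, hψl, hψr, hεp0]
    have : dot αV e (D a) = D a := by
      ext y
      show (1 : ℂ) • D a y + αV 0 (D a y) = D a y
      simp
    rw [this]
    abel
  have hlin : IsBoundedLinearMap ℂ (fun a : A => -(θQ (γ a))) := by
    have h1 : IsBoundedLinearMap ℂ g :=
      ((R.P 0).left_bdd.isBoundedLinearMap_left p0).sub ((R.P 0).right_bdd.isBoundedLinearMap_left p0)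
    have h2 : IsBoundedLinearMap ℂ (fun a : A => θQ (γ a)) := hθb.comp ((R.s_bdd 0).comp h1)
    exact IsBoundedLinearMap.neg h2
  refine ⟨hlin.toContinuousLinearMap, ψ p0, fun a b x => ?_, fun a x => ?_⟩
  · show (-(θQ (γ (a * b)))) x = αQ a ((-(θQ (γ b))) x) +
      (-(θQ (γ a))) (αM b x)
    rw [hγmul, hθb.map_add, hθl, hθr]
    show -((αQ a (θQ (γ b) x)) + (θQ (γ a)) (αM b x)) = αQ a (-(θQ (γ b)) x) +
      -((θQ (γ a)) (αM b x))
    rw [map_neg, neg_add]
  · have h1 := hθγ a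
    have h2 : θ (γ a) = q.comp (θQ (γ a)) := (hqθ' (γ a)).symm
    rw [h2] at h1
    have h3 := congrFun (congrArg DFunLike.coe h1) x
    show D a x = q ((-(θQ (γ a))) x) + αV a (ψ p0 x) - ψ p0 (αM a x)
    have h4 : q ((θQ (γ a)) x) = αV a (ψ p0 x) - ψ p0 (αM a x) - D a x := h3
    rw [show (-(θQ (γ a))) x = -((θQ (γ a)) x) from rfl, map_neg, h4]
    abel

end Pool.Agent.Helper832.CD
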